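import Mathlib
import Pool.Agent.Y250.AN.F1
import Pool.Agent.Y295.NS.D
set_option autoImplicit false
set_option linter.unusedSectionVars false

/-! Windows whose centre depends on the direction. -/

namespace Pool.Agent.Y295.ST

open MeasureTheory Set Complex Filter Topology
open scoped ENNReal NNReal
open Pool.Agent.Y250.AN (ee dt norm_ee ee_add ee_cont ee_meas dt_cont Ext Ext_meas Ext_sup Ext_integrable LL LL_add LL_smul
  LL_sum LL_lim LL_pow LL_up LL_dil LL_shift pf pf_meas)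
open Pool.Agent.W354.LS (tri tri_nonneg tri_le_one)
open Pool.Agent.Y295.NS (fj fj_nonneg fj_integrable fj_lint fj_tri fj_cont jensen tri_cont)
open Pool.Agent.TH277.HT (ch ch_norm ch_cont ch_add)

lemma ch_ee (x : ℝ) : ch x = ee (2 * Real.pi * x) := by
  unfold ch ee
  congr 1
  push_cast
  ring

lemma Ext_mod (s : ℝ) (G : ℂ → ℂ) (p : ℂ × ℝ) :
    Ext (fun ξ => ee (s * ‖ξ‖ ^ 2) * G ξ) p = Ext G (p + ((0 : ℂ), -s)) := by
  unfold Pool.Agent.Y250.AN.Ext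
  apply integral_congr_ae
  refine ae_of_all _ fun ξ => ?_
  simp only [Prod.fst_add, Prod.snd_add, add_zero]
  rw [← mul_assoc, ← ee_add]
  congr 2
  ring

lemma LL_mod (q : ℝ) (s : ℝ) (G : ℂ → ℂ) : LL q (fun ξ => ee (s * ‖ξ‖ ^ 2) * G ξ) = LL q G := by
  unfold LL
  simp only [Ext_mod]
  congr 1
  exact lintegral_add_right_eq_self (μ := (volume : Measure ℂ).prod (volume : Measure ℝ))
    (fun p => ‖Ext G p‖ₑ ^ q) ((0 : ℂ), -s)

lemma LL_congr (q : ℝ) {f g : ℂ → ℂ} (h : f =ᵐ[volume] g) : LL q f = LL q g := by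
  have h1 : ∀ p, Ext f p = Ext g p := by
    intro p
    unfold Pool.Agent.Y250.AN.Ext
    apply integral_congr_ae
    filter_upwards [h] with ξ hξ
    rw [hξ]
  unfold LL
  simp only [h1]

lemma LL_zero (q : ℝ) (hq : 0 < q) : LL q (fun _ : ℂ => (0 : ℂ)) = 0 := by
  have h : ∀ p, Ext (fun _ => (0 : ℂ)) p = 0 := by
    intro p
    unfold Pool.Agent.Y250.AN.Ext
    simp
  unfold LL
  simp only [h, enorm_zero]
  rw [ENNReal.zero_rpow_of_pos hq, lintegral_zero, ENNReal.zero_rpow_of_pos (by positivity)]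

/-- pointwise dominated limits -/
lemma LL_dom (q : ℝ) (hq : 1 ≤ q) (f F : ℂ → ℂ) (g : ℕ → ℂ → ℂ) (hF : Integrable F)
    (hfm : Measurable f) (hgm : ∀ n, Measurable (g n)) (hfF : ∀ z, ‖f z‖ ≤ ‖F z‖)
    (hgF : ∀ n z, ‖g n z‖ ≤ ‖F z‖) (hl : ∀ z, Tendsto (fun n => g n z) atTop (𝓝 (f z))) (C : ℝ≥0∞)
    (hC : ∀ n, LL q (g n) ≤ C) : LL q f ≤ C := by
  have hf : Integrable f := hF.norm.mono' hfm.aestronglyMeasurable (ae_of_all _ hfF)
  have hg : ∀ n, Integrable (g n) := fun n =>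
    hF.norm.mono' (hgm n).aestronglyMeasurable (ae_of_all _ (hgF n))
  refine LL_lim q hq f g hf hg hgm ?_ C hC
  have h1 := tendsto_lintegral_of_dominated_convergence (μ := (volume : Measure ℂ))
    (F := fun n z => ‖g n z - f z‖ₑ) (f := fun _ => 0) (fun z => 2 * ‖F z‖ₑ)
    (fun n => ((hgm n).sub hfm).enorm) (fun n => ae_of_all _ fun z => ?_) ?_ (ae_of_all _ fun z => ?_)
  · simpa using h1
  · simp only
    calc ‖g n z - f z‖ₑ ≤ ‖g n z‖ₑ + ‖f z‖ₑ := enorm_sub_le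
      _ ≤ ‖F z‖ₑ + ‖F z‖ₑ := by
          gcongr
          · rw [← ofReal_norm, ← ofReal_norm]
            exact ENNReal.ofReal_le_ofReal (hgF n z)
          · rw [← ofReal_norm, ← ofReal_norm]
            exact ENNReal.ofReal_le_ofReal (hfF z)
      _ = 2 * ‖F z‖ₑ := (two_mul _).symm
  · rw [lintegral_const_mul' _ _ (by norm_num)]
    exact ENNReal.mul_ne_top (by norm_num) hF.2.ne
  · have h2 : Tendsto (fun n => g n z - f z) atTop (𝓝 (f z - f z)) := (hl z).sub tendsto_const_nhds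
    rw [sub_self] at h2
    have h3 := h2.enorm
    simpa using h3

/-- joint measurability -/
lemma Ext_joint {Ω : Type*} [MeasurableSpace Ω] (K : Ω → ℂ → ℂ)
    (hK : Measurable fun y : ℂ × Ω => K y.2 y.1) :
    Measurable fun y : (ℂ × ℝ) × Ω => Ext (K y.2) y.1 := by
  have h2 : Measurable fun p : ((ℂ × ℝ) × Ω) × ℂ => ee (-(dt p.1.1.1 p.2 + p.1.1.2 * ‖p.2‖ ^ 2)) := by
    have h3 : Measurable fun p : ((ℂ × ℝ) × Ω) × ℂ => (p.1.1, p.2) :=
      (measurable_fst.comp measurable_fst).prodMk measurable_snd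
    have h4 : Measurable fun p : (ℂ × ℝ) × ℂ => ee (-(dt p.1.1 p.2 + p.1.2 * ‖p.2‖ ^ 2)) := by
      apply Continuous.measurable
      apply ee_cont.comp
      have h4 : Continuous fun p : (ℂ × ℝ) × ℂ => dt p.1.1 p.2 :=
        dt_cont.comp ((continuous_fst.comp continuous_fst).prodMk continuous_snd)
      fun_prop
    have h5 := h4.comp h3
    exact h5
  have h5 : Measurable fun p : ((ℂ × ℝ) × Ω) × ℂ => K p.1.2 p.2 := by
    have h3 : Measurable fun p : ((ℂ × ℝ) × Ω) × ℂ => (p.2, p.1.2) :=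
      measurable_snd.prodMk (measurable_snd.comp measurable_fst)
    have h5 := hK.comp h3
    exact h5
  have h1 : StronglyMeasurable (fun p : ((ℂ × ℝ) × Ω) × ℂ =>
      ee (-(dt p.1.1.1 p.2 + p.1.1.2 * ‖p.2‖ ^ 2)) * K p.1.2 p.2) :=
    (h2.mul h5).stronglyMeasurable
  have h6 : StronglyMeasurable fun y : (ℂ × ℝ) × Ω =>
      ∫ w, ee (-(dt y.1.1 w + y.1.2 * ‖w‖ ^ 2)) * K y.2 w := h1.integral_prod_right'
  unfold Pool.Agent.Y250.AN.Ext
  exact h6.measurable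

/-- Minkowski for a probability weight -/
lemma LL_mix {Ω : Type*} [MeasurableSpace Ω] (μ : Measure Ω) [SFinite μ] (q : ℝ) (hq : 1 ≤ q) (G : ℂ → ℂ)
    (K : Ω → ℂ → ℂ) (φ : Ω → ℝ≥0∞) (hφ : Measurable φ) (hφ1 : ∫⁻ w, φ w ∂μ ≤ 1)
    (hKm : Measurable fun y : (ℂ × ℝ) × Ω => Ext (K y.2) y.1)
    (hpt : ∀ x, ‖Ext G x‖ₑ ≤ ∫⁻ w, φ w * ‖Ext (K w) x‖ₑ ∂μ) (B : ℝ≥0∞)
    (hB : ∀ w, LL q (K w) ≤ B) : LL q G ≤ B := by
  have hq0 : 0 < q := by linarith
  have hm2 : Measurable fun y : (ℂ × ℝ) × Ω => φ y.2 * ‖Ext (K y.2) y.1‖ₑ ^ q :=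
    (hφ.comp measurable_snd).mul (hKm.enorm.pow_const q)
  have h1 : ∫⁻ x, ‖Ext G x‖ₑ ^ q ≤ B ^ q := by
    calc ∫⁻ x, ‖Ext G x‖ₑ ^ q ≤ ∫⁻ x, ∫⁻ w, φ w * ‖Ext (K w) x‖ₑ ^ q ∂μ := by
          apply lintegral_mono
          intro x
          simp only
          have h2 := jensen μ φ (fun w => ‖Ext (K w) x‖ₑ) hφ
            (hKm.comp (measurable_const.prodMk measurable_id)).enorm q hq
          refine (ENNReal.rpow_le_rpow (hpt x) hq0.le).trans (h2.trans ?_)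
          calc (∫⁻ w, φ w ∂μ) ^ (q - 1) * ∫⁻ w, φ w * ‖Ext (K w) x‖ₑ ^ q ∂μ
              ≤ 1 ^ (q - 1) * ∫⁻ w, φ w * ‖Ext (K w) x‖ₑ ^ q ∂μ := by
                gcongr
            _ = _ := by rw [ENNReal.one_rpow, one_mul]
      _ = ∫⁻ w, (∫⁻ x, φ w * ‖Ext (K w) x‖ₑ ^ q) ∂μ := lintegral_lintegral_swap hm2.aemeasurable
      _ ≤ ∫⁻ w, φ w * B ^ q ∂μ := by
          apply lintegral_mono
          intro w
          simp only
          have hmw : Measurable fun x : ℂ × ℝ => ‖Ext (K w) x‖ₑ ^ q :=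
            (hKm.comp (measurable_id.prodMk measurable_const)).enorm.pow_const q
          rw [lintegral_const_mul _ hmw]
          gcongr
          rw [← LL_pow q hq]
          exact ENNReal.rpow_le_rpow (hB w) hq0.le
      _ ≤ B ^ q := by
          rw [lintegral_mul_const _ hφ]
          calc (∫⁻ w, φ w ∂μ) * B ^ q ≤ 1 * B ^ q := by gcongr
            _ = _ := one_mul _
  unfold LL
  calc _ ≤ (B ^ q) ^ (1 / q) := ENNReal.rpow_le_rpow h1 (by positivity)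
    _ = B := by rw [← ENNReal.rpow_mul, mul_one_div_cancel hq0.ne', ENNReal.rpow_one]

/-- the direction -/
noncomputable def ud (ξ : ℂ) : ℂ := ee (arg ξ)

lemma ud_meas : Measurable ud := ee_meas.comp Complex.measurable_arg

/-- the pieces of a window -/
noncomputable def pc (c : ℝ) (α : ℂ → ℝ) (K : ℂ → ℂ) (w : ℝ) (ξ : ℂ) : ℂ :=
  ee ((2 * Real.pi * (w * c)) * ‖ξ‖ ^ 2) * (ch (w * α (ud ξ)) * K ξ)

lemma pc_eq (c : ℝ) (α : ℂ → ℝ) (K : ℂ → ℂ) (w : ℝ) (ξ : ℂ) :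
    pc c α K w ξ = ch (w * (c * ‖ξ‖ ^ 2 + α (ud ξ))) * K ξ := by
  unfold pc
  rw [mul_add, ch_add, ← mul_assoc, ch_ee (w * (c * ‖ξ‖ ^ 2))]
  congr 3
  ring

lemma pc_meas (c : ℝ) {α : ℂ → ℝ} (hα : Measurable α) {K : ℂ → ℂ} (hK : Measurable K) :
    Measurable fun y : ℂ × ℝ => pc c α K y.2 y.1 := by
  simp only [pc_eq]
  have h1 : Measurable fun y : ℂ × ℝ => y.2 * (c * ‖y.1‖ ^ 2 + α (ud y.1)) :=
    measurable_snd.mul (((by fun_prop : Measurable fun y : ℂ × ℝ => c * ‖y.1‖ ^ 2)).add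
      (hα.comp (ud_meas.comp measurable_fst)))
  have h2 := ch_cont.measurable.comp h1
  exact h2.mul (hK.comp measurable_fst)

lemma win_meas (c : ℝ) {α : ℂ → ℝ} (hα : Measurable α) :
    Measurable fun ξ : ℂ => tri (c * ‖ξ‖ ^ 2 + α (ud ξ)) := by
  apply tri_cont.measurable.comp
  exact (by fun_prop : Measurable fun ξ : ℂ => c * ‖ξ‖ ^ 2).add (hα.comp ud_meas)

/-- the window as a superposition -/
lemma Ext_win (c : ℝ) {α : ℂ → ℝ} (hα : Measurable α) {K : ℂ → ℂ} (hKm : Measurable K)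
    (hK : Integrable K) (z : ℂ × ℝ) :
    Ext (fun ξ => (tri (c * ‖ξ‖ ^ 2 + α (ud ξ)) : ℂ) * K ξ) z =
      ∫ w, (fj w : ℂ) * Ext (pc c α K w) z := by
  unfold Pool.Agent.Y250.AN.Ext
  have hI : Integrable (Function.uncurry fun (ξ : ℂ) (w : ℝ) =>
      ee (-(dt z.1 ξ + z.2 * ‖ξ‖ ^ 2)) * ((fj w : ℂ) * pc c α K w ξ))
      ((volume : Measure ℂ).prod volume) := by
    refine Integrable.mono' (hK.norm.mul_prod fj_integrable) ?_ (ae_of_all _ fun y => ?_)
    · apply Measurable.aestronglyMeasurable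
      have h2 : Measurable fun y : ℂ × ℝ => (fj y.2 : ℂ) :=
        Complex.measurable_ofReal.comp (fj_cont.measurable.comp measurable_snd)
      have h3 : Measurable fun y : ℂ × ℝ => ee (-(dt z.1 y.1 + z.2 * ‖y.1‖ ^ 2)) :=
        (Pool.Agent.Y250.AN.ph_cont z).measurable.comp measurable_fst
      exact h3.mul (h2.mul (pc_meas c hα hKm))
    · rw [Function.uncurry, norm_mul, norm_mul, norm_ee, one_mul, Complex.norm_real, Real.norm_eq_abs,
        abs_of_nonneg (fj_nonneg _), pc_eq, norm_mul, ch_norm, one_mul, mul_comm]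
  have hs := integral_integral_swap hI
  have e1 : ∀ ξ : ℂ, ee (-(dt z.1 ξ + z.2 * ‖ξ‖ ^ 2)) * ((tri (c * ‖ξ‖ ^ 2 + α (ud ξ)) : ℂ) * K ξ) =
      ∫ w : ℝ, ee (-(dt z.1 ξ + z.2 * ‖ξ‖ ^ 2)) * ((fj w : ℂ) * pc c α K w ξ) := by
    intro ξ
    simp only [pc_eq]
    rw [integral_const_mul]
    congr 1
    rw [← fj_tri, ← integral_mul_const]
    congr 1
    ext w
    ring
  simp only [e1]
  rw [hs]
  apply integral_congr_ae
  refine ae_of_all _ fun w => ?_
  simp only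
  rw [← integral_const_mul]
  apply integral_congr_ae
  refine ae_of_all _ fun x => ?_
  simp only
  ring

/-- windows -/
lemma LL_win (q : ℝ) (hq : 1 ≤ q) (c : ℝ) {α : ℂ → ℝ} (hα : Measurable α) {K : ℂ → ℂ} (hKm : Measurable K)
    (hK : Integrable K) (B : ℝ≥0∞) (h : ∀ w : ℝ, LL q (fun ξ => ch (w * α (ud ξ)) * K ξ) ≤ B) :
    LL q (fun ξ => (tri (c * ‖ξ‖ ^ 2 + α (ud ξ)) : ℂ) * K ξ) ≤ B := by
  refine LL_mix volume q hq _ (pc c α K) (fun w => ENNReal.ofReal (fj w))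
    fj_cont.measurable.ennreal_ofReal fj_lint.le (Ext_joint _ (pc_meas c hα hKm)) ?_ B ?_
  · intro z
    rw [Ext_win c hα hKm hK z]
    refine (enorm_integral_le_lintegral_enorm _).trans (le_of_eq ?_)
    apply lintegral_congr
    intro w
    rw [enorm_mul]
    congr 1
    rw [← ofReal_norm, Complex.norm_real, Real.norm_eq_abs, abs_of_nonneg (fj_nonneg _)]
  · intro w
    unfold pc
    rw [LL_mod]
    exact h w

end Pool.Agent.Y295.ST
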