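import Mathlib
import Pool.Agent.Y295.ST.A
set_option autoImplicit false
set_option linter.unusedSectionVars false

/-! Sharp cutoffs on an annulus. -/

namespace Pool.Agent.Y295.ST

open MeasureTheory Set Complex Filter Topology
open scoped ENNReal NNReal
open Pool.Agent.Y250.AN (ee dt norm_ee ee_add ee_cont ee_meas dt_cont Ext Ext_meas Ext_sup Ext_integrable LL LL_add LL_smul
  LL_sum LL_lim LL_pow LL_up LL_dil LL_shift pf pf_meas kA kA_meas R1 R1_kA Am N1 ci lint_polar Bd_kA_all shell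
  ee_two_pi N1_Am norm_pol ci_meas ci_meas2 pf_integrable)
open Pool.Agent.W354.LS (tri tri_nonneg tri_le_one tri_eq_zero)
open Pool.Agent.Y295.NS (fj fj_nonneg fj_integrable fj_lint fj_tri fj_cont jensen tri_cont ramp ramp_sum ramp_cont
  ramp_mem ind_lim)
open Pool.Agent.TH277.HT (ch ch_norm ch_cont ch_add)

attribute [local irreducible] LL

/-- density on the annulus -/
noncomputable def an (β : ℂ → ℂ) (ξ : ℂ) : ℂ := β (ud ξ) * kA ‖ξ‖

/-- measure of the support of the angular factor -/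
noncomputable def am (β : ℂ → ℂ) : ℝ≥0∞ := Am fun θ => β (ee θ)

lemma an_pf (β : ℂ → ℂ) : an β = pf (fun θ => β (ee θ)) kA := rfl

lemma be_meas {β : ℂ → ℂ} (hβ : Measurable β) : Measurable fun θ => β (ee θ) := hβ.comp ee_meas

lemma an_meas {β : ℂ → ℂ} (hβ : Measurable β) : Measurable (an β) := by
  rw [an_pf]
  exact pf_meas _ _ (be_meas hβ) kA_meas

lemma an_int {β : ℂ → ℂ} (hβ : Measurable β) (h1 : ∀ u, ‖β u‖ ≤ 1) : Integrable (an β) := by
  rw [an_pf]
  exact pf_integrable _ kA (be_meas hβ) 1 (fun θ => h1 _) kA_meas R1_kA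

lemma am_le (β : ℂ → ℂ) : am β ≤ ENNReal.ofReal (2 * Real.pi) := Pool.Agent.Y250.AN.Am_le _

lemma am_ne (β : ℂ → ℂ) : am β ≠ ⊤ := ne_top_of_le_ne_top ENNReal.ofReal_ne_top (am_le β)

lemma am_congr {β γ : ℂ → ℂ} (h : ∀ u, β u ≠ 0 ↔ γ u ≠ 0) : am β = am γ := by
  unfold am Am
  congr 1
  ext θ
  simp only [mem_inter_iff, mem_ofPred_eq, h]

lemma kA_norm (r : ℝ) : ‖kA r‖ ≤ 1 := by
  unfold kA
  split_ifs <;> simp

lemma ud_pol {r : ℝ} (hr : 0 < r) (θ : ℝ) : ud ((r : ℂ) * ee θ) = ee θ := by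
  have h1 := Complex.norm_mul_exp_arg_mul_I ((r : ℂ) * ee θ)
  rw [norm_pol r θ hr] at h1
  have h2 : (r : ℂ) ≠ 0 := by exact_mod_cast hr.ne'
  have h3 := mul_left_cancel₀ h2 h1
  exact h3

/-- base estimate on the annulus -/
theorem base (q : ℝ) (hq : 3 < q) : ∃ C : ℝ, 0 ≤ C ∧ ∀ β : ℂ → ℂ, Measurable β → (∀ u, ‖β u‖ ≤ 1) →
    LL q (an β) ≤ ENNReal.ofReal C * am β ^ (1 / q) := by
  obtain ⟨C, hC, h⟩ := Bd_kA_all q hq
  refine ⟨C, hC, fun β hβ h1 => ?_⟩
  have h2 := h (fun θ => β (ee θ)) (be_meas hβ) 1 (fun θ => h1 _) (fun θ => by simp only [ee_two_pi])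
  rw [mul_one] at h2
  exact h2

lemma R1_tri (c : ℝ) (hc : 0 < c) (a : ℝ) :
    R1 (fun r => (tri (c * r ^ 2 + a) : ℂ) * kA r) ≤ ENNReal.ofReal (1 / c) := by
  have h := shell (-a / c) (1 / c) 1 zero_le_one (fun r => (tri (c * r ^ 2 + a) : ℂ) * kA r)
    (fun r => by
      rw [norm_mul, Complex.norm_real, Real.norm_of_nonneg (tri_nonneg _)]
      exact mul_le_one₀ (tri_le_one _) (norm_nonneg _) (kA_norm r))
    (fun r hr => by
      have : tri (c * r ^ 2 + a) = 0 := by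
        apply tri_eq_zero
        by_contra hlt
        rw [not_le, abs_lt] at hlt
        apply hr
        constructor
        · rw [← sub_nonneg]
          have e : r ^ 2 - (-a / c - 1 / c) = (c * r ^ 2 + a + 1) / c := by
            field_simp
            ring
          rw [e]
          exact div_nonneg (by linarith [hlt.1]) hc.le
        · rw [← sub_nonneg]
          have e : -a / c + 1 / c - r ^ 2 = (1 - (c * r ^ 2 + a)) / c := by
            field_simp
            ring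
          rw [e]
          exact div_nonneg (by linarith [hlt.2]) hc.le
      rw [this]
      simp)
  rwa [one_mul] at h

/-- the mass of a window -/
lemma win_L1 (c : ℝ) (hc : 0 < c) {α : ℂ → ℝ} (hα : Measurable α) {β : ℂ → ℂ} (hβ : Measurable β)
    (h1 : ∀ u, ‖β u‖ ≤ 1) :
    ∫⁻ ξ, ‖(tri (c * ‖ξ‖ ^ 2 + α (ud ξ)) : ℂ) * an β ξ‖ₑ ≤ ENNReal.ofReal (1 / c) * am β := by
  have hm : Measurable fun ξ : ℂ => (tri (c * ‖ξ‖ ^ 2 + α (ud ξ)) : ℂ) * an β ξ :=
    (Complex.measurable_ofReal.comp (win_meas c hα)).mul (an_meas hβ)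
  rw [lint_polar _ hm]
  have e1 : ∀ r ∈ Ioi (0 : ℝ), ENNReal.ofReal r *
      N1 (ci (fun ξ : ℂ => (tri (c * ‖ξ‖ ^ 2 + α (ud ξ)) : ℂ) * an β ξ) r) =
      ∫⁻ θ in Ioo (-Real.pi) Real.pi, ‖β (ee θ)‖ₑ * (ENNReal.ofReal r *
        ‖(tri (c * r ^ 2 + α (ee θ)) : ℂ) * kA r‖ₑ) := by
    intro r hr
    have hr0 : 0 < r := hr
    unfold N1
    rw [← lintegral_const_mul' _ _ ENNReal.ofReal_ne_top]
    apply lintegral_congr
    intro θ
    unfold ci an
    simp only
    rw [norm_pol r θ hr0, ud_pol hr0, enorm_mul, enorm_mul, enorm_mul]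
    ring
  rw [setLIntegral_congr_fun measurableSet_Ioi e1]
  have hm2 : Measurable (Function.uncurry fun (r θ : ℝ) => ‖β (ee θ)‖ₑ * (ENNReal.ofReal r *
      ‖(tri (c * r ^ 2 + α (ee θ)) : ℂ) * kA r‖ₑ)) := by
    have a1 : Measurable fun y : ℝ × ℝ => ‖β (ee y.2)‖ₑ := ((be_meas hβ).comp measurable_snd).enorm
    have a2 : Measurable fun y : ℝ × ℝ => ENNReal.ofReal y.1 := measurable_fst.ennreal_ofReal
    have a3 : Measurable fun y : ℝ × ℝ => tri (c * y.1 ^ 2 + α (ee y.2)) := by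
      apply tri_cont.measurable.comp
      exact (by fun_prop : Measurable fun y : ℝ × ℝ => c * y.1 ^ 2).add (hα.comp (ee_meas.comp measurable_snd))
    have a4 : Measurable fun y : ℝ × ℝ => ‖(tri (c * y.1 ^ 2 + α (ee y.2)) : ℂ) * kA y.1‖ₑ :=
      ((Complex.measurable_ofReal.comp a3).mul (kA_meas.comp measurable_fst)).enorm
    exact a1.mul (a2.mul a4)
  rw [lintegral_lintegral_swap hm2.aemeasurable]
  calc ∫⁻ θ in Ioo (-Real.pi) Real.pi, ∫⁻ r in Ioi (0 : ℝ), ‖β (ee θ)‖ₑ * (ENNReal.ofReal r *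
        ‖(tri (c * r ^ 2 + α (ee θ)) : ℂ) * kA r‖ₑ)
      ≤ ∫⁻ θ in Ioo (-Real.pi) Real.pi, ENNReal.ofReal (1 / c) * ‖β (ee θ)‖ₑ := by
        apply lintegral_mono
        intro θ
        simp only
        rw [lintegral_const_mul' _ _ (by simp), mul_comm]
        exact mul_le_mul' (R1_tri c hc _) le_rfl
    _ = ENNReal.ofReal (1 / c) * N1 (fun θ => β (ee θ)) := by
        rw [lintegral_const_mul' _ _ ENNReal.ofReal_ne_top]
        rfl
    _ ≤ _ := by
        have h2 := N1_Am (fun θ => β (ee θ)) (be_meas hβ) 1 (fun θ => h1 _)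
        rw [ENNReal.ofReal_one, one_mul] at h2
        exact mul_le_mul' le_rfl h2

/-- windows at scale `1/c` -/
theorem win_e (q e : ℝ) (hq : 3 < q) (he1 : 1 / q < e) (he2 : e < 1 - 2 / q) :
    ∃ C : ℝ, 0 ≤ C ∧ ∀ (β : ℂ → ℂ) (α : ℂ → ℝ) (c : ℝ), Measurable β → (∀ u, ‖β u‖ ≤ 1) → Measurable α → 0 < c →
    LL q (fun ξ => (tri (c * ‖ξ‖ ^ 2 + α (ud ξ)) : ℂ) * an β ξ) ≤
      ENNReal.ofReal (C * (1 / c) ^ (e - 1 / q)) * am β ^ e := by
  have hq0 : 0 < q := by linarith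
  set q' : ℝ := 1 + q * (1 - e) with hq'
  have hq'3 : 3 < q' := by
    have : 2 < q * (1 - e) := by
      have h1 : 2 / q < 1 - e := by linarith
      rw [div_lt_iff₀ hq0] at h1
      linarith
    rw [hq']
    linarith
  have hq'q : q' < q := by
    rw [div_lt_iff₀ hq0] at he1
    rw [hq']
    linarith
  have e1 : 1 - q' / q = e - 1 / q := by
    rw [hq']
    field_simp
    ring
  obtain ⟨C, hC, h⟩ := base q' hq'3
  refine ⟨C ^ (q' / q), by positivity, ?_⟩
  intro β α c hβ hβ1 hα hc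
  have hm : Measurable fun ξ : ℂ => (tri (c * ‖ξ‖ ^ 2 + α (ud ξ)) : ℂ) * an β ξ :=
    (Complex.measurable_ofReal.comp (win_meas c hα)).mul (an_meas hβ)
  have b1 := LL_up q q' (by linarith) hq'q.le _ hm
  have b2 := win_L1 c hc hα hβ hβ1
  have b3 : LL q' (fun ξ => (tri (c * ‖ξ‖ ^ 2 + α (ud ξ)) : ℂ) * an β ξ) ≤
      ENNReal.ofReal C * am β ^ (1 / q') := by
    apply LL_win q' (by linarith) c hα (an_meas hβ) (an_int hβ hβ1)
    intro w
    have hm2 : Measurable fun u => ch (w * α u) * β u := by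
      have h3 : Measurable fun u => ch (w * α u) := ch_cont.measurable.comp (hα.const_mul w)
      exact h3.mul hβ
    have h4 := h (fun u => ch (w * α u) * β u) hm2 (fun u => by
      rw [norm_mul, ch_norm, one_mul]
      exact hβ1 u)
    have h5 : am (fun u => ch (w * α u) * β u) = am β := by
      apply am_congr
      intro u
      have h6 : ch (w * α u) ≠ 0 := by
        intro h7
        have h8 := ch_norm (w * α u)
        rw [h7, norm_zero] at h8
        exact zero_ne_one h8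
      simp [h6]
    have h6 : (fun ξ => ch (w * α (ud ξ)) * an β ξ) = an fun u => ch (w * α u) * β u := by
      ext ξ
      unfold an
      ring
    rw [h6]
    rw [h5] at h4
    exact h4
  have hs : 0 ≤ 1 - q' / q := by
    rw [e1]
    linarith
  have hs2 : 0 ≤ q' / q := by positivity
  refine b1.trans ((mul_le_mul' (ENNReal.rpow_le_rpow b2 hs) (ENNReal.rpow_le_rpow b3 hs2)).trans (le_of_eq ?_))
  rw [ENNReal.mul_rpow_of_nonneg _ _ hs, ENNReal.mul_rpow_of_nonneg _ _ hs2, ← ENNReal.rpow_mul,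
    ENNReal.ofReal_rpow_of_nonneg (by positivity) hs, ENNReal.ofReal_rpow_of_nonneg hC hs2,
    ENNReal.ofReal_mul (by positivity), e1]
  have e2 : 1 / q' * (q' / q) = 1 / q := by
    field_simp
  rw [e2]
  have e3 : am β ^ (e - 1 / q) * am β ^ (1 / q) = am β ^ e := by
    rw [← ENNReal.rpow_add_of_nonneg _ _ (by linarith) (by positivity)]
    congr 1
    ring
  rw [← e3]
  ring

/-- sharp cutoffs on the annulus -/
theorem cut (q e : ℝ) (hq : 3 < q) (he1 : 1 / q < e) (he2 : e < 1 - 2 / q) :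
    ∃ C : ℝ, 0 ≤ C ∧ ∀ (β : ℂ → ℂ) (R : ℂ → ℝ), Measurable β → (∀ u, ‖β u‖ ≤ 1) → Measurable R →
    LL q (fun ξ => ((if R (ud ξ) ≤ ‖ξ‖ ^ 2 then (1 : ℝ) else 0 : ℝ) : ℂ) * an β ξ) ≤
      ENNReal.ofReal C * am β ^ e := by
  obtain ⟨C, hC, h⟩ := win_e q e hq he1 he2
  have hθ0 : 0 < e - 1 / q := by linarith
  set θ : ℝ := e - 1 / q with hθ
  set ρ : ℝ := (1 / 2 : ℝ) ^ θ with hρ
  have hρ0 : 0 < ρ := by positivity
  have hρ1 : ρ < 1 := Real.rpow_lt_one (by norm_num) (by norm_num) hθ0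
  have hρ2 : 0 < 1 - ρ := by linarith
  refine ⟨C + C + C * (1 - ρ)⁻¹, by positivity, ?_⟩
  intro β R hβ hβ1 hR
  set α : ℂ → ℝ := fun u => -(max 0 (min 1 (R u))) with hα
  have hαm : Measurable α := (measurable_const.max (measurable_const.min hR)).neg
  set v : ℂ → ℝ := fun ξ => 1 * ‖ξ‖ ^ 2 + α (ud ξ) with hv
  have hvm : Measurable v := (by fun_prop : Measurable fun ξ : ℂ => 1 * ‖ξ‖ ^ 2).add (hαm.comp ud_meas)
  have hanm := an_meas hβ
  have hani := an_int hβ hβ1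
  have hkA : ∀ ξ : ℂ, ¬ (1 / 4 ≤ ‖ξ‖ ^ 2 ∧ ‖ξ‖ ^ 2 < 1) → an β ξ = 0 := by
    intro ξ hξ
    unfold an kA
    rw [if_neg hξ, mul_zero]
  have e0 : (fun ξ => ((if R (ud ξ) ≤ ‖ξ‖ ^ 2 then (1 : ℝ) else 0 : ℝ) : ℂ) * an β ξ) =
      fun ξ => ((if 0 ≤ v ξ then (1 : ℝ) else 0 : ℝ) : ℂ) * an β ξ := by
    ext ξ
    by_cases hξ : 1 / 4 ≤ ‖ξ‖ ^ 2 ∧ ‖ξ‖ ^ 2 < 1
    · have h2 : R (ud ξ) ≤ ‖ξ‖ ^ 2 ↔ 0 ≤ v ξ := by
        rw [hv, hα]
        simp only
        rw [one_mul, ← sub_eq_add_neg, sub_nonneg, max_le_iff, min_le_iff]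
        constructor
        · intro h3
          exact ⟨by linarith [hξ.1], Or.inr h3⟩
        · rintro ⟨_, h3 | h3⟩
          · linarith [hξ.2]
          · exact h3
      simp only [h2]
    · rw [hkA ξ hξ, mul_zero, mul_zero]
  rw [e0]
  refine LL_dom q (by linarith) _ (an β) (fun n ξ => (ramp n (v ξ) : ℂ) * an β ξ) hani ?_ ?_ ?_ ?_ ?_ _ ?_
  · apply Measurable.mul _ hanm
    apply Complex.measurable_ofReal.comp
    exact Measurable.ite (measurableSet_le measurable_const hvm) measurable_const measurable_const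
  · intro n
    exact (Complex.measurable_ofReal.comp ((ramp_cont n).measurable.comp hvm)).mul hanm
  · intro ξ
    rw [norm_mul, Complex.norm_real, Real.norm_eq_abs]
    apply mul_le_of_le_one_left (norm_nonneg _)
    split_ifs <;> simp
  · intro n ξ
    rw [norm_mul, Complex.norm_real, Real.norm_eq_abs, abs_of_nonneg (ramp_mem n _).1]
    exact mul_le_of_le_one_left (norm_nonneg _) (ramp_mem n _).2
  · intro ξ
    apply Tendsto.mul_const
    exact (Complex.continuous_ofReal.tendsto _).comp (ind_lim (v ξ))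
  intro n
  have e1 : (fun ξ => (ramp n (v ξ) : ℂ) * an β ξ) = fun ξ =>
      ((tri (1 * ‖ξ‖ ^ 2 + α (ud ξ)) : ℂ) * an β ξ +
        (tri (1 * ‖ξ‖ ^ 2 + (fun u => α u + -1) (ud ξ)) : ℂ) * an β ξ) +
      ∑ j ∈ Finset.range n, (-(1 / 2) : ℂ) *
        ((tri (2 ^ (j + 1) * ‖ξ‖ ^ 2 + (fun u => α u * 2 ^ (j + 1) + 1) (ud ξ)) : ℂ) * an β ξ) := by
    ext ξ
    by_cases hξ : 1 / 4 ≤ ‖ξ‖ ^ 2 ∧ ‖ξ‖ ^ 2 < 1
    · have hv1 : v ξ ≤ 1 := by
        rw [hv, hα]
        simp only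
        have := le_max_left 0 (min 1 (R (ud ξ)))
        linarith [hξ.2]
      rw [ramp_sum n _ hv1]
      push_cast
      rw [add_mul, add_mul, Finset.sum_mul]
      congr 1
      · congr 2
        rw [hv]
        simp only
        rw [add_assoc]
      · apply Finset.sum_congr rfl
        intro j _
        have e2 : v ξ * 2 ^ (j + 1) + 1 = 2 ^ (j + 1) * ‖ξ‖ ^ 2 + (α (ud ξ) * 2 ^ (j + 1) + 1) := by
          rw [hv]
          simp only
          ring
        rw [e2]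
        ring
    · simp only [hkA ξ hξ, mul_zero, Finset.sum_const_zero, add_zero]
  rw [e1]
  have hα1 : Measurable fun u => α u + -1 := hαm.add_const _
  have hαj : ∀ j : ℕ, Measurable fun u => α u * 2 ^ (j + 1) + 1 := fun j => (hαm.mul_const _).add_const _
  have hwm : ∀ (c : ℝ) (γ : ℂ → ℝ), Measurable γ → Measurable fun ξ => (tri (c * ‖ξ‖ ^ 2 + γ (ud ξ)) : ℂ) * an β ξ :=
    fun c γ hγ => (Complex.measurable_ofReal.comp (win_meas c hγ)).mul hanm
  have hwi : ∀ (c : ℝ) (γ : ℂ → ℝ), Measurable γ → Integrable fun ξ => (tri (c * ‖ξ‖ ^ 2 + γ (ud ξ)) : ℂ) * an β ξ := by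
    intro c γ hγ
    refine hani.norm.mono' (hwm c γ hγ).aestronglyMeasurable (ae_of_all _ fun ξ => ?_)
    rw [norm_mul, Complex.norm_real, Real.norm_of_nonneg (tri_nonneg _)]
    exact mul_le_of_le_one_left (norm_nonneg _) (tri_le_one _)
  have b1 := h β α 1 hβ hβ1 hαm one_pos
  have b2 := h β _ 1 hβ hβ1 hα1 one_pos
  have b3 : ∀ j : ℕ, LL q (fun ξ => (-(1 / 2) : ℂ) *
      ((tri (2 ^ (j + 1) * ‖ξ‖ ^ 2 + (fun u => α u * 2 ^ (j + 1) + 1) (ud ξ)) : ℂ) * an β ξ)) ≤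
      ENNReal.ofReal (C * ρ ^ j) * am β ^ e := by
    intro j
    rw [LL_smul q (by linarith) _ _ (hwm _ _ (hαj j))]
    have c1 : ‖(-(1 / 2) : ℂ)‖ₑ ≤ 1 := by
      rw [← ofReal_norm]
      apply ENNReal.ofReal_le_one.2
      rw [norm_neg]
      norm_num
    have c2 := h β _ (2 ^ (j + 1)) hβ hβ1 (hαj j) (by positivity)
    calc _ ≤ 1 * (ENNReal.ofReal (C * (1 / 2 ^ (j + 1)) ^ θ) * am β ^ e) := mul_le_mul' c1 c2
      _ ≤ _ := by
          rw [one_mul]
          gcongr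
          have e5 : ((1 / 2 ^ (j + 1) : ℝ)) ^ θ = ρ ^ (j + 1) := by
            rw [hρ, ← Real.rpow_natCast ((1 / 2 : ℝ) ^ θ) (j + 1), ← Real.rpow_mul (by norm_num), mul_comm θ,
              Real.rpow_mul (by norm_num), Real.rpow_natCast, div_pow, one_pow]
          rw [e5, pow_succ]
          exact mul_le_of_le_one_right (by positivity) hρ1.le
  have i0 := hwi 1 α hαm
  have i1 := hwi 1 _ hα1
  have i2 := fun j : ℕ => (hwi (2 ^ (j + 1)) _ (hαj j)).const_mul (-(1 / 2) : ℂ)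
  have m0 := hwm 1 α hαm
  have m1 := hwm 1 _ hα1
  have m2 := fun j : ℕ => (hwm (2 ^ (j + 1)) _ (hαj j)).const_mul (-(1 / 2) : ℂ)
  refine (LL_add q (by linarith) _ _ (i0.add i1) (integrable_finsetSum _ fun j _ => i2 j) (m0.add m1)
    (Finset.measurable_sum _ fun j _ => m2 j)).trans ?_
  refine (add_le_add (LL_add q (by linarith) _ _ i0 i1 m0 m1)
    (LL_sum q (by linarith) _ _ i2 m2)).trans ?_
  refine (add_le_add (add_le_add b1 b2) (Finset.sum_le_sum fun j _ => b3 j)).trans ?_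
  rw [div_one, Real.one_rpow, mul_one, ← add_mul, ← Finset.sum_mul, ← add_mul]
  refine mul_le_mul' ?_ le_rfl
  rw [← ENNReal.ofReal_add hC hC, ← ENNReal.ofReal_sum_of_nonneg (fun j _ => by positivity),
    ← ENNReal.ofReal_add (by positivity) (Finset.sum_nonneg fun j _ => by positivity)]
  apply ENNReal.ofReal_le_ofReal
  rw [← Finset.mul_sum]
  have h5 : ∑ j ∈ Finset.range n, ρ ^ j ≤ (1 - ρ)⁻¹ := by
    rw [← tsum_geometric_of_lt_one hρ0.le hρ1]
    exact (summable_geometric_of_lt_one hρ0.le hρ1).sum_le_tsum _ (fun j _ => by positivity)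
  gcongr

end Pool.Agent.Y295.ST
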