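import Mathlib
import Pool.Agent.Y295.ST.B
set_option autoImplicit false
set_option linter.unusedSectionVars false

/-! Star-shaped sets. -/

namespace Pool.Agent.Y295.ST

open MeasureTheory Set Complex Filter Topology
open scoped ENNReal NNReal
open Pool.Agent.Y250.AN (ee dt norm_ee ee_add ee_cont ee_meas dt_cont Ext Ext_meas Ext_sup Ext_integrable LL LL_add LL_smul
  LL_sum LL_lim LL_pow LL_up LL_dil LL_shift pf pf_meas kA kA_meas R1 R1_kA Am Am_eq N1 ci lint_polar Bd_kA_all shell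
  ee_two_pi N1_Am norm_pol ci_meas ci_meas2 pf_integrable Sn Sn_meas Sn_succ Sn_norm)
open Pool.Agent.W354.LS (tri tri_nonneg tri_le_one tri_eq_zero tri_zero)

attribute [local irreducible] LL

/-- star-shaped about `0` (the point `0` is not considered) -/
def Star (S : Set ℂ) : Prop :=
  ∀ (u : ℂ) (r s : ℝ), ‖u‖ = 1 → 0 < r → r ≤ s → (s : ℂ) * u ∈ S → (r : ℂ) * u ∈ S

lemma ud_norm (ξ : ℂ) : ‖ud ξ‖ = 1 := norm_ee _

lemma ud_eq (ξ : ℂ) : (‖ξ‖ : ℂ) * ud ξ = ξ := Complex.norm_mul_exp_arg_mul_I ξ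

/-- the part of a ray in the set, in the variable `v = r²` -/
def ray (S : Set ℂ) (u : ℂ) : Set ℝ := {v : ℝ | v ∈ Ico (1 / 4 : ℝ) 1 ∧ ((Real.sqrt v : ℝ) : ℂ) * u ∈ S}

/-- the threshold -/
noncomputable def Rt (S : Set ℂ) (u : ℂ) : ℝ := 1 / 4 + (volume (ray S u)).toReal

lemma ray_fin (S : Set ℂ) (u : ℂ) : volume (ray S u) ≠ ⊤ := by
  refine ne_top_of_le_ne_top ?_ (measure_mono (fun v hv => hv.1) : volume (ray S u) ≤ volume (Ico (1 / 4 : ℝ) 1))
  rw [Real.volume_Ico]
  exact ENNReal.ofReal_ne_top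

lemma Rt_meas {S : Set ℂ} (hS : MeasurableSet S) : Measurable (Rt S) := by
  have hset : MeasurableSet {p : ℂ × ℝ | p.2 ∈ Ico (1 / 4 : ℝ) 1 ∧ ((Real.sqrt p.2 : ℝ) : ℂ) * p.1 ∈ S} := by
    apply MeasurableSet.inter
    · exact measurableSet_Ico.preimage measurable_snd
    · have h1 : Measurable fun p : ℂ × ℝ => ((Real.sqrt p.2 : ℝ) : ℂ) * p.1 := by fun_prop
      exact h1 hS
  have h2 : Measurable fun y : ℂ => volume (Prod.mk y ⁻¹'
      {p : ℂ × ℝ | p.2 ∈ Ico (1 / 4 : ℝ) 1 ∧ ((Real.sqrt p.2 : ℝ) : ℂ) * p.1 ∈ S}) := measurable_measure_prodMk_left hset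
  exact measurable_const.add h2.ennreal_toReal

lemma star_level {S : Set ℂ} (hS : Star S) (u : ℂ) (hu : ‖u‖ = 1) (v : ℝ) (hv : v ∈ Ico (1 / 4 : ℝ) 1)
    (hne : v ≠ Rt S u) : ((Real.sqrt v : ℝ) : ℂ) * u ∈ S ↔ v < Rt S u := by
  have hv0 : 0 < v := by linarith [hv.1]
  constructor
  · intro h
    have hsub : Icc (1 / 4 : ℝ) v ⊆ ray S u := by
      intro w hw
      refine ⟨⟨hw.1, hw.2.trans_lt hv.2⟩, ?_⟩
      exact hS u _ _ hu (Real.sqrt_pos.2 (by linarith [hw.1])) (Real.sqrt_le_sqrt hw.2) h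
    have h1 := ENNReal.toReal_mono (ray_fin S u) (measure_mono hsub)
    rw [Real.volume_Icc, ENNReal.toReal_ofReal (by linarith [hv.1])] at h1
    unfold Rt at hne ⊢
    exact lt_of_le_of_ne (by linarith) hne
  · intro h
    by_contra hc
    have hsub : ray S u ⊆ Icc (1 / 4 : ℝ) v := by
      intro w hw
      refine ⟨hw.1.1, ?_⟩
      by_contra hwv
      exact hc (hS u _ _ hu (Real.sqrt_pos.2 hv0) (Real.sqrt_le_sqrt (not_le.1 hwv).le) hw.2)
    have h1 := ENNReal.toReal_mono (by rw [Real.volume_Icc]; exact ENNReal.ofReal_ne_top)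
      (measure_mono hsub : volume (ray S u) ≤ volume (Icc (1 / 4 : ℝ) v))
    rw [Real.volume_Icc, ENNReal.toReal_ofReal (by linarith [hv.1])] at h1
    unfold Rt at h
    linarith

/-- graphs are null sets -/
lemma graph_null (R : ℂ → ℝ) (hR : Measurable R) :
    volume {ξ : ℂ | (1 / 4 ≤ ‖ξ‖ ^ 2 ∧ ‖ξ‖ ^ 2 < 1) ∧ ‖ξ‖ ^ 2 = R (ud ξ)} = 0 := by
  set S : Set ℂ := {ξ : ℂ | (1 / 4 ≤ ‖ξ‖ ^ 2 ∧ ‖ξ‖ ^ 2 < 1) ∧ ‖ξ‖ ^ 2 = R (ud ξ)} with hS
  have hSm : MeasurableSet S := by
    have h1 : Measurable fun ξ : ℂ => ‖ξ‖ ^ 2 := by fun_prop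
    exact ((measurableSet_le measurable_const h1).inter (measurableSet_lt h1 measurable_const)).inter
      (measurableSet_eq_fun h1 (hR.comp ud_meas))
  have hle : ∀ c : ℝ, 0 < c → volume S ≤ ENNReal.ofReal (2 * Real.pi * c⁻¹) := by
    intro c hc
    calc volume S = ∫⁻ ξ, S.indicator 1 ξ := (lintegral_indicator_one hSm).symm
      _ ≤ ∫⁻ ξ, ‖(tri (c * ‖ξ‖ ^ 2 + (fun u => -(c * R u)) (ud ξ)) : ℂ) * an (fun _ => 1) ξ‖ₑ := by
          apply lintegral_mono
          intro ξ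
          simp only
          by_cases hξ : ξ ∈ S
          · have h1 : ‖ξ‖ ^ 2 = R (ud ξ) := hξ.2
            have h2 : an (fun _ => 1) ξ = 1 := by
              unfold an kA
              rw [if_pos hξ.1, one_mul]
            rw [indicator_of_mem hξ, h1, add_neg_cancel, tri_zero, h2]
            simp
          · rw [indicator_of_notMem hξ]
            exact zero_le
      _ ≤ ENNReal.ofReal (1 / c) * am (fun _ => 1) :=
          win_L1 c hc (hR.const_mul c).neg measurable_const (fun _ => by simp)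
      _ ≤ ENNReal.ofReal (1 / c) * ENNReal.ofReal (2 * Real.pi) := mul_le_mul' le_rfl (am_le _)
      _ = _ := by
          rw [← ENNReal.ofReal_mul (by positivity), one_div]
          congr 1
          ring
  have ht : Tendsto (fun c : ℝ => ENNReal.ofReal (2 * Real.pi * c⁻¹)) atTop (𝓝 0) := by
    have h1 := (tendsto_inv_atTop_zero (𝕜 := ℝ)).const_mul (2 * Real.pi)
    rw [mul_zero] at h1
    have h2 := ENNReal.tendsto_ofReal h1
    rwa [ENNReal.ofReal_zero] at h2
  have h1 := ge_of_tendsto ht ((eventually_gt_atTop (0 : ℝ)).mono hle)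
  exact le_antisymm h1 zero_le

/-- the angles of the rays that reach the annulus -/
noncomputable def bt (S : Set ℂ) (u : ℂ) : ℂ := if 1 / 4 < Rt S u then 1 else 0

lemma bt_meas {S : Set ℂ} (hS : MeasurableSet S) : Measurable (bt S) :=
  Measurable.ite (measurableSet_lt measurable_const (Rt_meas hS)) measurable_const measurable_const

lemma bt_norm (S : Set ℂ) (u : ℂ) : ‖bt S u‖ ≤ 1 := by
  unfold bt
  split_ifs <;> simp

lemma half_int : ∫⁻ r in Ioo (0 : ℝ) (1 / 2), ENNReal.ofReal r = ENNReal.ofReal (1 / 8) := by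
  rw [← ofReal_integral_eq_lintegral_ofReal]
  · congr 1
    rw [← integral_Ioc_eq_integral_Ioo, ← intervalIntegral.integral_of_le (by norm_num), integral_id]
    norm_num
  · rw [← IntegrableOn, ← integrableOn_Ioc_iff_integrableOn_Ioo,
      ← intervalIntegrable_iff_integrableOn_Ioc_of_le (by norm_num)]
    exact intervalIntegral.intervalIntegrable_id
  · filter_upwards [ae_restrict_mem measurableSet_Ioo] with r hr
    exact hr.1.le

/-- the sectors are contained in the set -/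
lemma am_vol {S : Set ℂ} (hS : MeasurableSet S) (hstar : Star S) : am (bt S) ≤ 8 * volume S := by
  have hb : Measurable fun θ => bt S (ee θ) := be_meas (bt_meas hS)
  have hm : Measurable fun ξ : ℂ => S.indicator (fun _ => (1 : ℂ)) ξ := measurable_const.indicator hS
  have h1 : volume S = ∫⁻ ξ, ‖S.indicator (fun _ => (1 : ℂ)) ξ‖ₑ := by
    rw [← lintegral_indicator_one hS]
    apply lintegral_congr
    intro ξ
    by_cases hξ : ξ ∈ S
    · rw [indicator_of_mem hξ, indicator_of_mem hξ]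
      simp
    · rw [indicator_of_notMem hξ, indicator_of_notMem hξ]
      simp
  have h2 : ∀ r ∈ Ioo (0 : ℝ) (1 / 2), am (bt S) ≤ N1 (ci (fun ξ => S.indicator (fun _ => (1 : ℂ)) ξ) r) := by
    intro r hr
    unfold am N1 ci
    rw [Am_eq _ hb]
    apply lintegral_mono
    intro θ
    simp only
    by_cases hθ : bt S (ee θ) = 0
    · rw [indicator_of_notMem (by simpa using hθ)]
      exact zero_le
    · rw [indicator_of_mem (by simpa using hθ)]
      have h3 : 1 / 4 < Rt S (ee θ) := by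
        by_contra hc
        apply hθ
        unfold bt
        rw [if_neg hc]
      have h4 : (ray S (ee θ)).Nonempty := by
        by_contra hc
        rw [not_nonempty_iff_eq_empty] at hc
        unfold Rt at h3
        rw [hc, measure_empty] at h3
        simp at h3
      obtain ⟨v, hv⟩ := h4
      have h5 : r ≤ Real.sqrt v := by
        apply Real.le_sqrt_of_sq_le
        nlinarith [hr.1, hr.2, hv.1.1]
      have h6 : (r : ℂ) * ee θ ∈ S := hstar _ _ _ (norm_ee θ) hr.1 h5 hv.2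
      rw [indicator_of_mem h6]
      simp
  have h3 : ENNReal.ofReal (1 / 8) * am (bt S) ≤ volume S := by
    rw [h1, lint_polar _ hm, ← half_int, ← lintegral_mul_const' _ _ (am_ne _)]
    calc ∫⁻ r in Ioo (0 : ℝ) (1 / 2), ENNReal.ofReal r * am (bt S)
        ≤ ∫⁻ r in Ioo (0 : ℝ) (1 / 2), ENNReal.ofReal r *
            N1 (ci (fun ξ => S.indicator (fun _ => (1 : ℂ)) ξ) r) := by
          apply setLIntegral_mono' measurableSet_Ioo
          intro r hr
          exact mul_le_mul' le_rfl (h2 r hr)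
      _ ≤ _ := lintegral_mono_set Ioo_subset_Ioi_self
  calc am (bt S) = 8 * (ENNReal.ofReal (1 / 8) * am (bt S)) := by
        rw [← mul_assoc, show (8 : ℝ≥0∞) = ENNReal.ofReal 8 by norm_num, ← ENNReal.ofReal_mul (by norm_num)]
        norm_num
    _ ≤ _ := mul_le_mul' le_rfl h3

/-- the part of a star-shaped set in the annulus -/
theorem piece (q e : ℝ) (hq : 3 < q) (he1 : 1 / q < e) (he2 : e < 1 - 2 / q) :
    ∃ C : ℝ, 0 ≤ C ∧ ∀ S : Set ℂ, MeasurableSet S → Star S →
    LL q (fun ξ => S.indicator (fun _ => (1 : ℂ)) ξ * kA ‖ξ‖) ≤ ENNReal.ofReal C * (8 * volume S) ^ e := by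
  obtain ⟨C, hC, h⟩ := cut q e hq he1 he2
  have hq0 : 0 < q := by linarith
  have he0 : 0 < e := lt_trans (by positivity) he1
  refine ⟨C + C, by positivity, ?_⟩
  intro S hS hstar
  have hb := bt_meas hS
  have hR := Rt_meas hS
  have hnull := graph_null (Rt S) hR
  have hae : (fun ξ => S.indicator (fun _ => (1 : ℂ)) ξ * kA ‖ξ‖) =ᵐ[volume] fun ξ =>
      ((if (fun _ : ℂ => (-1 : ℝ)) (ud ξ) ≤ ‖ξ‖ ^ 2 then (1 : ℝ) else 0 : ℝ) : ℂ) * an (bt S) ξ +
      (-1 : ℂ) * (((if Rt S (ud ξ) ≤ ‖ξ‖ ^ 2 then (1 : ℝ) else 0 : ℝ) : ℂ) * an (bt S) ξ) := by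
    have hn : ∀ᵐ ξ : ℂ, ¬((1 / 4 ≤ ‖ξ‖ ^ 2 ∧ ‖ξ‖ ^ 2 < 1) ∧ ‖ξ‖ ^ 2 = Rt S (ud ξ)) := by
      rw [ae_iff]
      simp only [not_not]
      exact hnull
    filter_upwards [hn] with ξ hξ
    have hm1 : (-1 : ℝ) ≤ ‖ξ‖ ^ 2 := by
      have := sq_nonneg ‖ξ‖
      linarith
    rw [if_pos hm1]
    unfold an
    by_cases hk : 1 / 4 ≤ ‖ξ‖ ^ 2 ∧ ‖ξ‖ ^ 2 < 1
    · have hk1 : kA ‖ξ‖ = 1 := by
        unfold kA
        rw [if_pos hk]
      have hne : ‖ξ‖ ^ 2 ≠ Rt S (ud ξ) := fun hc => hξ ⟨hk, hc⟩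
      have h3 := star_level hstar (ud ξ) (ud_norm ξ) (‖ξ‖ ^ 2) hk hne
      rw [Real.sqrt_sq (norm_nonneg _), ud_eq] at h3
      rw [hk1]
      by_cases hin : ξ ∈ S
      · have h4 := h3.1 hin
        rw [indicator_of_mem hin, if_neg (not_le.2 h4)]
        have h5 : bt S (ud ξ) = 1 := by
          unfold bt
          rw [if_pos (lt_of_le_of_lt hk.1 h4)]
        rw [h5]
        simp
      · have h4 : Rt S (ud ξ) ≤ ‖ξ‖ ^ 2 := not_lt.1 fun hc => hin (h3.2 hc)
        rw [indicator_of_notMem hin, if_pos h4]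
        simp
    · have hk1 : kA ‖ξ‖ = 0 := by
        unfold kA
        rw [if_neg hk]
      rw [hk1]
      simp
  rw [LL_congr q hae]
  have hsm : ∀ R : ℂ → ℝ, Measurable R → Measurable fun ξ : ℂ =>
      ((if R (ud ξ) ≤ ‖ξ‖ ^ 2 then (1 : ℝ) else 0 : ℝ) : ℂ) * an (bt S) ξ := by
    intro R hR
    apply Measurable.mul _ (an_meas hb)
    apply Complex.measurable_ofReal.comp
    exact Measurable.ite (measurableSet_le (hR.comp ud_meas) (by fun_prop)) measurable_const measurable_const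
  have hsi : ∀ R : ℂ → ℝ, Measurable R → Integrable fun ξ : ℂ =>
      ((if R (ud ξ) ≤ ‖ξ‖ ^ 2 then (1 : ℝ) else 0 : ℝ) : ℂ) * an (bt S) ξ := by
    intro R hR
    refine (an_int hb (bt_norm S)).norm.mono' (hsm R hR).aestronglyMeasurable (ae_of_all _ fun ξ => ?_)
    rw [norm_mul, Complex.norm_real, Real.norm_eq_abs]
    apply mul_le_of_le_one_left (norm_nonneg _)
    split_ifs <;> simp
  have hR1 : Measurable fun _ : ℂ => (-1 : ℝ) := measurable_const
  refine (LL_add q (by linarith) _ _ (hsi _ hR1) ((hsi _ hR).const_mul _) (hsm _ hR1)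
    ((hsm _ hR).const_mul _)).trans ?_
  rw [LL_smul q (by linarith) _ _ (hsm _ hR)]
  have h1 := h (bt S) _ hb (bt_norm S) hR1
  have h2 := h (bt S) _ hb (bt_norm S) hR
  have h3 : ‖(-1 : ℂ)‖ₑ = 1 := by
    rw [← ofReal_norm, norm_neg, norm_one, ENNReal.ofReal_one]
  rw [h3, one_mul, ENNReal.ofReal_add hC hC, add_mul]
  have h4 : am (bt S) ^ e ≤ (8 * volume S) ^ e := ENNReal.rpow_le_rpow (am_vol hS hstar) he0.le
  exact add_le_add (h1.trans (mul_le_mul' le_rfl h4)) (h2.trans (mul_le_mul' le_rfl h4))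

/-- star-shaped sets -/
theorem setB (q e : ℝ) (hq : 3 < q) (he1 : 1 / q < e) (he2 : e < 1 - 2 / q) :
    ∃ C : ℝ, 0 ≤ C ∧ ∀ (S : Set ℂ) (V : ℝ), MeasurableSet S → Star S → (∀ ξ ∈ S, ‖ξ‖ < 1) → 0 ≤ V →
    volume S ≤ ENNReal.ofReal V →
    LL q (fun ξ => S.indicator (fun _ => (1 : ℂ)) ξ) ≤ ENNReal.ofReal (C * V ^ e) := by
  obtain ⟨C, hC, h⟩ := piece q e hq he1 he2
  have hq0 : 0 < q := by linarith
  have he0 : 0 < e := lt_trans (by positivity) he1
  set δ : ℝ := 2 - 4 / q - 2 * e with hδ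
  have hδ0 : 0 < δ := by
    have : 4 / q = 2 * (2 / q) := by ring
    rw [hδ, this]
    linarith
  set ρ : ℝ := (1 / 2 : ℝ) ^ δ with hρ
  have hρ0 : 0 < ρ := by positivity
  have hρ1 : ρ < 1 := Real.rpow_lt_one (by norm_num) (by norm_num) hδ0
  have hρ2 : 0 < 1 - ρ := by linarith
  refine ⟨C * 8 ^ e * (1 - ρ)⁻¹, by positivity, ?_⟩
  intro S V hS hstar hS1 hV hvol
  have hind : Measurable fun ξ : ℂ => S.indicator (fun _ => (1 : ℂ)) ξ := measurable_const.indicator hS
  have hSfin : volume S < ⊤ := lt_of_le_of_lt hvol ENNReal.ofReal_lt_top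
  have hF : Integrable fun ξ : ℂ => S.indicator (fun _ => (1 : ℂ)) ξ := by
    have h1 : IntegrableOn (fun _ : ℂ => (1 : ℂ)) S volume := integrableOn_const hSfin.ne (by simp)
    exact h1.integrable_indicator hS
  -- one piece
  have hp : ∀ n : ℕ, LL q (fun ξ => S.indicator (fun _ => (1 : ℂ)) ξ * kA (2 ^ n * ‖ξ‖)) ≤
      ENNReal.ofReal (C * 8 ^ e * V ^ e * ρ ^ n) := by
    intro n
    set t : ℝ := (1 / 2 : ℝ) ^ n with ht
    have ht0 : 0 < t := by positivity
    have hti : t⁻¹ = 2 ^ n := by rw [ht, one_div, inv_pow, inv_inv]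
    set S' : Set ℂ := (fun η : ℂ => t • η) ⁻¹' S with hS'
    have hS'm : MeasurableSet S' := by
      have h1 : Measurable fun η : ℂ => t • η := by fun_prop
      exact h1 hS
    have hstar' : Star S' := by
      intro u r s hu hr hrs hs
      have h1 : ((t * s : ℝ) : ℂ) * u ∈ S := by
        have h2 : t • ((s : ℂ) * u) ∈ S := hs
        rw [Complex.real_smul, ← mul_assoc, ← Complex.ofReal_mul] at h2
        exact h2
      have h3 := hstar u (t * r) (t * s) hu (by positivity) (by gcongr) h1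
      change t • ((r : ℂ) * u) ∈ S
      rw [Complex.real_smul, ← mul_assoc, ← Complex.ofReal_mul]
      exact h3
    have h1 := h S' hS'm hstar'
    have e1 : (fun ξ => S.indicator (fun _ => (1 : ℂ)) ξ * kA (2 ^ n * ‖ξ‖)) = fun ξ =>
        (fun η : ℂ => S'.indicator (fun _ => (1 : ℂ)) η * kA ‖η‖) (t⁻¹ • ξ) := by
      ext ξ
      simp only
      rw [norm_smul, Real.norm_eq_abs, abs_of_pos (by positivity), hti]
      congr 1
      have h2 : (t⁻¹ • ξ ∈ S') ↔ ξ ∈ S := by
        change t • (t⁻¹ • ξ) ∈ S ↔ ξ ∈ S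
        rw [smul_smul, mul_inv_cancel₀ ht0.ne', one_smul]
      rw [← hti]
      by_cases hξ : ξ ∈ S
      · rw [indicator_of_mem hξ, indicator_of_mem (h2.2 hξ)]
      · rw [indicator_of_notMem hξ, indicator_of_notMem (fun hc => hξ (h2.1 hc))]
    have hm : Measurable fun η : ℂ => S'.indicator (fun _ => (1 : ℂ)) η * kA ‖η‖ :=
      (measurable_const.indicator hS'm).mul (kA_meas.comp measurable_norm)
    rw [e1, LL_dil q (by linarith) t ht0 _ hm]
    have hvol' : volume S' ≤ ENNReal.ofReal ((t ^ 2)⁻¹ * V) := by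
      rw [hS', Measure.addHaar_preimage_smul _ ht0.ne', Complex.finrank_real_complex, abs_of_pos (by positivity),
        ENNReal.ofReal_mul (by positivity)]
      exact mul_le_mul' le_rfl hvol
    calc ENNReal.ofReal (t ^ (2 - 4 / q)) * LL q (fun η : ℂ => S'.indicator (fun _ => (1 : ℂ)) η * kA ‖η‖)
        ≤ ENNReal.ofReal (t ^ (2 - 4 / q)) * (ENNReal.ofReal C *
          (ENNReal.ofReal (8 * ((t ^ 2)⁻¹ * V))) ^ e) := by
          refine mul_le_mul' le_rfl (h1.trans (mul_le_mul' le_rfl (ENNReal.rpow_le_rpow ?_ he0.le)))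
          rw [ENNReal.ofReal_mul (by norm_num), show ENNReal.ofReal 8 = 8 by norm_num]
          exact mul_le_mul' le_rfl hvol'
      _ = _ := by
          rw [ENNReal.ofReal_rpow_of_nonneg (by positivity) he0.le, ← ENNReal.ofReal_mul hC,
            ← ENNReal.ofReal_mul (by positivity)]
          congr 1
          rw [Real.mul_rpow (by norm_num) (by positivity), Real.mul_rpow (by positivity) hV]
          have e2 : ((t ^ 2)⁻¹ : ℝ) ^ e = t ^ (-(2 * e)) := by
            rw [Real.inv_rpow (by positivity), ← Real.rpow_natCast t 2, ← Real.rpow_mul ht0.le,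
              ← Real.rpow_neg ht0.le]
            norm_num
          have e3 : t ^ (2 - 4 / q) * t ^ (-(2 * e)) = ρ ^ n := by
            rw [← Real.rpow_add ht0, ht, hρ, ← Real.rpow_natCast ((1 / 2 : ℝ) ^ δ) n,
              ← Real.rpow_mul (by norm_num), ← Real.rpow_natCast (1 / 2 : ℝ) n, ← Real.rpow_mul (by norm_num), hδ]
            congr 1
            ring
          rw [e2, ← e3]
          ring
  have hpm : ∀ n : ℕ, Measurable fun ξ : ℂ => S.indicator (fun _ => (1 : ℂ)) ξ * kA (2 ^ n * ‖ξ‖) := by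
    intro n
    exact hind.mul (kA_meas.comp (measurable_norm.const_mul _))
  have hpi : ∀ n : ℕ, Integrable fun ξ : ℂ => S.indicator (fun _ => (1 : ℂ)) ξ * kA (2 ^ n * ‖ξ‖) := by
    intro n
    refine hF.norm.mono' (hpm n).aestronglyMeasurable (ae_of_all _ fun ξ => ?_)
    rw [norm_mul]
    exact mul_le_of_le_one_right (norm_nonneg _) (kA_norm _)
  have hsn : ∀ (N : ℕ) (ξ : ℂ), S.indicator (fun _ => (1 : ℂ)) ξ * Sn N ‖ξ‖ =
      ∑ n ∈ Finset.range N, S.indicator (fun _ => (1 : ℂ)) ξ * kA (2 ^ n * ‖ξ‖) := by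
    intro N ξ
    induction N with
    | zero =>
      have : Sn 0 ‖ξ‖ = 0 := by
        unfold Sn
        rw [if_neg]
        rintro ⟨h1, h2⟩
        rw [pow_zero] at h1
        linarith
      rw [this, Finset.range_zero, Finset.sum_empty, mul_zero]
    | succ N ih =>
      rw [Sn_succ, mul_add, ih, Finset.sum_range_succ]
  have hN : ∀ N : ℕ, LL q (fun ξ => S.indicator (fun _ => (1 : ℂ)) ξ * Sn N ‖ξ‖) ≤
      ENNReal.ofReal (C * 8 ^ e * (1 - ρ)⁻¹ * V ^ e) := by
    intro N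
    simp only [hsn]
    refine (LL_sum q (by linarith) _ _ hpi hpm).trans ((Finset.sum_le_sum fun n _ => hp n).trans ?_)
    rw [← ENNReal.ofReal_sum_of_nonneg (fun n _ => by positivity)]
    apply ENNReal.ofReal_le_ofReal
    rw [← Finset.mul_sum]
    have h5 : ∑ j ∈ Finset.range N, ρ ^ j ≤ (1 - ρ)⁻¹ := by
      rw [← tsum_geometric_of_lt_one hρ0.le hρ1]
      exact (summable_geometric_of_lt_one hρ0.le hρ1).sum_le_tsum _ (fun j _ => by positivity)
    calc C * 8 ^ e * V ^ e * ∑ j ∈ Finset.range N, ρ ^ j ≤ C * 8 ^ e * V ^ e * (1 - ρ)⁻¹ := by gcongr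
      _ = _ := by ring
  -- the limit
  have hae : (fun ξ => S.indicator (fun _ => (1 : ℂ)) ξ) =ᵐ[volume] fun ξ =>
      S.indicator (fun _ => (1 : ℂ)) ξ * (if ξ = 0 then 0 else 1) := by
    have h0 : ∀ᵐ ξ : ℂ, ξ ≠ 0 := by
      rw [ae_iff]
      simp only [ne_eq, not_not]
      exact measure_singleton (0 : ℂ)
    filter_upwards [h0] with ξ hξ
    rw [if_neg hξ, mul_one]
  rw [LL_congr q hae]
  refine LL_dom q (by linarith) _ (fun ξ => S.indicator (fun _ => (1 : ℂ)) ξ)
    (fun N ξ => S.indicator (fun _ => (1 : ℂ)) ξ * Sn N ‖ξ‖) hF ?_ ?_ ?_ ?_ ?_ _ hN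
  · exact hind.mul (Measurable.ite (measurableSet_singleton 0) measurable_const measurable_const)
  · intro N
    exact hind.mul ((Sn_meas N).comp measurable_norm)
  · intro ξ
    rw [norm_mul]
    apply mul_le_of_le_one_right (norm_nonneg _)
    split_ifs <;> simp
  · intro N ξ
    rw [norm_mul]
    exact mul_le_of_le_one_right (norm_nonneg _) (Sn_norm N _)
  · intro ξ
    by_cases hin : ξ ∈ S
    · by_cases h0 : ξ = 0
      · rw [if_pos h0, mul_zero]
        have h1 : ∀ N : ℕ, Sn N ‖ξ‖ = 0 := by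
          intro N
          unfold Sn
          rw [if_neg]
          rintro ⟨h2, _⟩
          rw [h0, norm_zero] at h2
          have h3 : (0 : ℝ) < (1 / 4) ^ N := by positivity
          norm_num at h2
          linarith
        simp only [h1, mul_zero]
        exact tendsto_const_nhds
      · rw [if_neg h0, mul_one]
        apply tendsto_const_nhds.congr'
        have h1 : 0 < ‖ξ‖ ^ 2 := by
          have := norm_pos_iff.2 h0
          positivity
        have h2 : ∀ᶠ N : ℕ in atTop, (1 / 4 : ℝ) ^ N < ‖ξ‖ ^ 2 :=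
          (tendsto_pow_atTop_nhds_zero_of_lt_one (by norm_num : (0 : ℝ) ≤ 1 / 4) (by norm_num)).eventually
            (gt_mem_nhds h1)
        filter_upwards [h2] with N hN
        have h3 : Sn N ‖ξ‖ = 1 := by
          unfold Sn
          rw [if_pos]
          refine ⟨hN.le, ?_⟩
          have h4 := hS1 ξ hin
          have h5 := norm_nonneg ξ
          nlinarith
        rw [h3, mul_one]
    · rw [indicator_of_notMem hin]
      simp

end Pool.Agent.Y295.ST
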