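import Mathlib
import Pool.Agent.Y295.ST.C
set_option autoImplicit false
set_option linter.unusedSectionVars false

/-! Layer cake. -/

namespace Pool.Agent.Y295.ST

open MeasureTheory Set Complex Filter Topology
open scoped ENNReal NNReal
open Pool.Agent.Y250.AN (ee dt norm_ee ee_add ee_cont ee_meas dt_cont Ext Ext_meas Ext_sup Ext_integrable LL LL_add LL_smul
  LL_sum LL_lim LL_pow LL_up LL_dil LL_shift)
open Pool.Agent.Y295.NS (jensen)

/-- the layer of `g` at level `l` -/
noncomputable def lay (g : ℂ → ℝ) (l : ℝ) (z : ℂ) : ℂ := ({z | l < g z} : Set ℂ).indicator (fun _ => (1 : ℂ)) z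

lemma lay_meas {g : ℂ → ℝ} (hg : Measurable g) : Measurable fun y : ℂ × ℝ => lay g y.2 y.1 := by
  have e : (fun y : ℂ × ℝ => lay g y.2 y.1) =
      ({y : ℂ × ℝ | y.2 < g y.1}).indicator fun _ => (1 : ℂ) := by
    ext y
    rfl
  rw [e]
  exact measurable_const.indicator (measurableSet_lt measurable_snd (hg.comp measurable_fst))

lemma lay_one (r : ℝ) :
    ∫⁻ l in Ioi (0 : ℝ), (Iio r).indicator (fun _ => (1 : ℝ≥0∞)) l = ENNReal.ofReal r := by
  rw [lintegral_indicator measurableSet_Iio, setLIntegral_one, Measure.restrict_apply measurableSet_Iio,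
    inter_comm, Ioi_inter_Iio, Real.volume_Ioo, sub_zero]

/-- layer cake -/
lemma Ext_layer {g : ℂ → ℝ} (hg : Measurable g) (hg0 : ∀ z, 0 ≤ g z) (hgi : Integrable g) (p : ℂ × ℝ) :
    Ext (fun z => (g z : ℂ)) p = ∫ l in Ioi (0 : ℝ), Ext (lay g l) p := by
  unfold Pool.Agent.Y250.AN.Ext
  have hm : Measurable (Function.uncurry fun (z : ℂ) (l : ℝ) =>
      ee (-(dt p.1 z + p.2 * ‖z‖ ^ 2)) * lay g l z) :=
    ((Pool.Agent.Y250.AN.ph_cont p).measurable.comp measurable_fst).mul (lay_meas hg)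
  have hn : ∀ (z : ℂ) (l : ℝ),
      ‖ee (-(dt p.1 z + p.2 * ‖z‖ ^ 2)) * lay g l z‖ₑ ≤
        (Iio (g z)).indicator (fun _ => (1 : ℝ≥0∞)) l := by
    intro z l
    rw [enorm_mul, ← ofReal_norm, norm_ee, ENNReal.ofReal_one, one_mul]
    unfold lay
    by_cases h : l < g z
    · rw [indicator_of_mem (show z ∈ {z | l < g z} from h), indicator_of_mem (show l ∈ Iio (g z) from h)]
      simp
    · rw [indicator_of_notMem (show z ∉ {z | l < g z} from h), enorm_zero]
      exact zero_le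
  have hI : Integrable (Function.uncurry fun (z : ℂ) (l : ℝ) =>
      ee (-(dt p.1 z + p.2 * ‖z‖ ^ 2)) * lay g l z)
      ((volume : Measure ℂ).prod (volume.restrict (Ioi (0 : ℝ)))) := by
    refine ⟨hm.aestronglyMeasurable, ?_⟩
    rw [hasFiniteIntegral_iff_enorm, lintegral_prod _ hm.enorm.aemeasurable]
    refine lt_of_le_of_lt (lintegral_mono fun z => (lintegral_mono fun l => hn z l).trans
      (le_of_eq (lay_one (g z)))) ?_
    exact hgi.lintegral_lt_top
  have hs := integral_integral_swap hI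
  rw [← hs]
  apply integral_congr_ae
  refine ae_of_all _ fun z => ?_
  simp only
  rw [integral_const_mul]
  congr 1
  have e : (fun l : ℝ => lay g l z) = (Iio (g z)).indicator fun _ => (1 : ℂ) := by
    ext l
    unfold lay
    by_cases h : l < g z
    · rw [indicator_of_mem (show z ∈ {z | l < g z} from h), indicator_of_mem (show l ∈ Iio (g z) from h)]
    · rw [indicator_of_notMem (show z ∉ {z | l < g z} from h), indicator_of_notMem (show l ∉ Iio (g z) from h)]
  rw [e, integral_indicator measurableSet_Iio, Measure.restrict_restrict measurableSet_Iio,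
    setIntegral_const, inter_comm, Ioi_inter_Iio, measureReal_def, Real.volume_Ioo,
    sub_zero, ENNReal.toReal_ofReal (hg0 z)]
  simp

lemma wt_int {c : ℝ} (hc : 1 < c) : ∃ W : ℝ, 0 ≤ W ∧
    ∫⁻ l in Ioi (0 : ℝ), ENNReal.ofReal ((1 + |l|) ^ (-c)) ≤ ENNReal.ofReal W := by
  have hI : Integrable (fun t : ℝ => (1 + ‖t‖) ^ (-c)) := by
    apply integrable_one_add_norm
    simpa using hc
  refine ⟨∫ t : ℝ, (1 + ‖t‖) ^ (-c), integral_nonneg fun t => by positivity, ?_⟩
  rw [ofReal_integral_eq_lintegral_ofReal hI (ae_of_all _ fun t => by positivity)]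
  exact setLIntegral_le_lintegral _ _

/-- the unit disc -/
def D0 : Set ℂ := Metric.ball 0 1

lemma D0_meas : MeasurableSet D0 := measurableSet_ball

lemma D0_mem (z : ℂ) : z ∈ D0 ↔ ‖z‖ < 1 := by
  unfold D0
  rw [Metric.mem_ball, dist_zero_right]

lemma D0_vol : volume D0 ≤ 4 := by
  unfold D0
  rw [Complex.volume_ball]
  simp only [ENNReal.ofReal_one, one_pow, one_mul]
  have h1 : (NNReal.pi : ℝ) ≤ ((4 : ℝ≥0) : ℝ) := by
    simpa using Real.pi_le_four
  exact_mod_cast h1

/-- nonincreasing along rays -/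
def Dec (g : ℂ → ℝ) : Prop :=
  ∀ (u : ℂ) (r s : ℝ), ‖u‖ = 1 → 0 < r → r ≤ s → g ((s : ℂ) * u) ≤ g ((r : ℂ) * u)

lemma int_of {g : ℂ → ℝ} (hg : Measurable g) (hg0 : ∀ z, 0 ≤ g z) (hsupp : ∀ z, z ∉ D0 → g z = 0)
    {p : ℝ} (hp : 1 ≤ p) (hfin : ∫⁻ z, ENNReal.ofReal (g z ^ p) < ⊤) : Integrable g := by
  refine ⟨hg.aestronglyMeasurable, ?_⟩
  rw [hasFiniteIntegral_iff_enorm]
  have h1 : ∀ z, ‖g z‖ₑ ≤ D0.indicator (fun _ => (1 : ℝ≥0∞)) z + ENNReal.ofReal (g z ^ p) := by
    intro z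
    by_cases hz : z ∈ D0
    · rw [indicator_of_mem hz, Real.enorm_eq_ofReal (hg0 z), ← ENNReal.ofReal_one,
        ← ENNReal.ofReal_add zero_le_one (Real.rpow_nonneg (hg0 z) _)]
      apply ENNReal.ofReal_le_ofReal
      rcases le_total (g z) 1 with h | h
      · have := Real.rpow_nonneg (hg0 z) p
        linarith
      · have h5 : g z ^ (1 : ℝ) ≤ g z ^ p := Real.rpow_le_rpow_of_exponent_le h hp
        rw [Real.rpow_one] at h5
        linarith
    · rw [hsupp z hz, enorm_zero]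
      exact zero_le
  refine lt_of_le_of_lt (lintegral_mono h1) ?_
  rw [lintegral_add_left (measurable_const.indicator D0_meas), lintegral_indicator D0_meas,
    setLIntegral_one]
  exact ENNReal.add_lt_top.2 ⟨lt_of_le_of_lt D0_vol (by norm_num), hfin⟩

/-- The bound for normalised functions. -/
theorem layerN (q : ℝ) (hq : 3 < q) (p : ℝ) (hp : q / (q - 2) < p) :
    ∃ C : ℝ, 0 ≤ C ∧ ∀ g : ℂ → ℝ, Measurable g → (∀ z, 0 ≤ g z) → Dec g → (∀ z, z ∉ D0 → g z = 0) →
    ∫⁻ z, ENNReal.ofReal (g z ^ p) ≤ 1 → LL q (fun z => (g z : ℂ)) ≤ ENNReal.ofReal C := by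
  have hq2 : 0 < q - 2 := by linarith
  have hq0 : 0 < q := by linarith
  have hp1 : 1 < p := by
    refine lt_trans ?_ hp
    rw [lt_div_iff₀ hq2]
    linarith
  have hp0 : 0 < p := by linarith
  have hlt : 1 / p < 1 - 2 / q := by
    rw [div_lt_iff₀ hq2] at hp
    have e : 1 - 2 / q = (q - 2) / q := by field_simp
    rw [e, div_lt_div_iff₀ hp0 hq0]
    linarith
  have hlt2 : 1 / q < 1 - 2 / q := by
    have e : 1 - 2 / q = (q - 2) / q := by field_simp
    rw [e, div_lt_div_iff₀ hq0 hq0]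
    nlinarith
  obtain ⟨θ, hθa, hθ2⟩ := exists_between (max_lt hlt hlt2)
  have hθ1 : 1 / p < θ := lt_of_le_of_lt (le_max_left _ _) hθa
  have hθ3 : 1 / q < θ := lt_of_le_of_lt (le_max_right _ _) hθa
  have hθ0 : 0 < θ := lt_trans (by positivity) hθ1
  obtain ⟨C, hC0, hC⟩ := setB q θ hq hθ3 hθ2
  set c : ℝ := p * θ with hc
  have hc1 : 1 < c := by
    rw [hc]
    rw [div_lt_iff₀ hp0] at hθ1
    linarith
  obtain ⟨W, hW0, hW⟩ := wt_int hc1
  set K : ℝ := 4 * 2 ^ p with hK
  have hK0 : 0 < K := by positivity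
  set D : ℝ := C * K ^ θ with hD
  have hD0 : 0 ≤ D := by positivity
  refine ⟨W * D, by positivity, ?_⟩
  intro g hg hg0 hdec hsupp hnorm
  have hgi : Integrable g := int_of hg hg0 hsupp hp1.le (lt_of_le_of_lt hnorm ENNReal.one_lt_top)
  -- distribution function
  have hdist : ∀ l : ℝ, 0 < l → volume {z | l < g z} ≤ ENNReal.ofReal (K * (1 + |l|) ^ (-p)) := by
    intro l hl
    rw [abs_of_pos hl]
    rcases le_total l 1 with h | h
    · have h1 : {z | l < g z} ⊆ D0 := by
        intro z hz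
        by_contra hc
        have hz' : l < g z := hz
        rw [hsupp z hc] at hz'
        linarith
      refine (measure_mono h1).trans (D0_vol.trans ?_)
      rw [show (4 : ℝ≥0∞) = ENNReal.ofReal 4 by norm_num]
      apply ENNReal.ofReal_le_ofReal
      rw [hK, Real.rpow_neg (by linarith), mul_assoc, ← div_eq_mul_inv]
      have h2 : 1 ≤ 2 ^ p / (1 + l) ^ p := by
        rw [one_le_div (by positivity)]
        exact Real.rpow_le_rpow (by linarith) (by linarith) hp0.le
      linarith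
    · have hlp : 0 < l ^ p := by positivity
      have h1 : {z | l < g z} ⊆ {z | ENNReal.ofReal (l ^ p) ≤ ENNReal.ofReal (g z ^ p)} := by
        intro z hz
        have hz' : l < g z := hz
        exact ENNReal.ofReal_le_ofReal (Real.rpow_le_rpow hl.le hz'.le hp0.le)
      refine (measure_mono h1).trans ?_
      have hmp : Measurable fun z => ENNReal.ofReal (g z ^ p) := (hg.pow_const p).ennreal_ofReal
      refine (meas_ge_le_lintegral_div hmp.aemeasurable (by simpa using hlp) ENNReal.ofReal_ne_top).trans ?_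
      calc (∫⁻ z, ENNReal.ofReal (g z ^ p)) / ENNReal.ofReal (l ^ p) ≤ 1 / ENNReal.ofReal (l ^ p) := by
            gcongr
        _ = ENNReal.ofReal (1 / l ^ p) := by
            rw [ENNReal.ofReal_div_of_pos hlp, ENNReal.ofReal_one]
        _ ≤ _ := by
            apply ENNReal.ofReal_le_ofReal
            rw [hK, Real.rpow_neg (by linarith), mul_assoc, ← div_eq_mul_inv]
            have h2 : 1 / l ^ p ≤ 2 ^ p / (1 + l) ^ p := by
              rw [div_le_div_iff₀ hlp (by positivity), one_mul, ← Real.mul_rpow (by norm_num) hl.le]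
              exact Real.rpow_le_rpow (by linarith) (by linarith) hp0.le
            have h3 : 0 ≤ 2 ^ p / (1 + l) ^ p := by positivity
            linarith
  -- the bound of the layers
  have hlay : ∀ l : ℝ, 0 < l → ∫⁻ y, ‖Ext (lay g l) y‖ₑ ^ q ≤
      ENNReal.ofReal (D * (1 + |l|) ^ (-c)) ^ q := by
    intro l hl
    rw [← LL_pow q (by linarith)]
    apply ENNReal.rpow_le_rpow _ hq0.le
    have hstar : Star {z | l < g z} := by
      intro u r s hu hr hrs hs
      exact lt_of_lt_of_le (show l < g ((s : ℂ) * u) from hs) (hdec u r s hu hr hrs)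
    have hin : ∀ ξ ∈ {z | l < g z}, ‖ξ‖ < 1 := by
      intro ξ hξ
      rw [← D0_mem]
      by_contra hc
      have h2 : l < g ξ := hξ
      rw [hsupp ξ hc] at h2
      linarith
    have h1 := hC {z | l < g z} (K * (1 + |l|) ^ (-p)) (measurableSet_lt measurable_const hg) hstar hin
      (by positivity) (hdist l hl)
    refine h1.trans (le_of_eq ?_)
    congr 1
    rw [Real.mul_rpow hK0.le (by positivity), ← Real.rpow_mul (by positivity), hD, hc]
    rw [neg_mul]
    ring
  have hXm := Ext_joint (fun (l : ℝ) (z : ℂ) => lay g l z) (lay_meas hg)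
  have hwm : Measurable fun l : ℝ => ENNReal.ofReal ((1 + |l|) ^ (-c)) := by
    apply Measurable.ennreal_ofReal
    exact (measurable_const.add measurable_id.abs).pow_const _
  have hwm2 : Measurable fun l : ℝ => ENNReal.ofReal ((1 + |l|) ^ c) := by
    apply Measurable.ennreal_ofReal
    exact (measurable_const.add measurable_id.abs).pow_const _
  have hww : ∀ l : ℝ, ENNReal.ofReal ((1 + |l|) ^ (-c)) * ENNReal.ofReal ((1 + |l|) ^ c) = 1 := by
    intro l
    rw [← ENNReal.ofReal_mul (by positivity), ← Real.rpow_add (by positivity), neg_add_cancel, Real.rpow_zero,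
      ENNReal.ofReal_one]
  have hpt : ∀ y, ‖Ext (fun z => (g z : ℂ)) y‖ₑ ^ q ≤ ENNReal.ofReal W ^ (q - 1) *
      ∫⁻ l in Ioi (0 : ℝ), ENNReal.ofReal ((1 + |l|) ^ (-c)) *
        (ENNReal.ofReal ((1 + |l|) ^ c) * ‖Ext (lay g l) y‖ₑ) ^ q := by
    intro y
    rw [Ext_layer hg hg0 hgi y]
    have hG : Measurable fun l : ℝ => ENNReal.ofReal ((1 + |l|) ^ c) * ‖Ext (lay g l) y‖ₑ :=
      hwm2.mul (hXm.comp (by fun_prop : Measurable fun l : ℝ => (y, l))).enorm
    have h1 := jensen (volume.restrict (Ioi (0 : ℝ))) _ _ hwm hG q (by linarith)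
    have h2 : ∀ l : ℝ, ENNReal.ofReal ((1 + |l|) ^ (-c)) *
        (ENNReal.ofReal ((1 + |l|) ^ c) * ‖Ext (lay g l) y‖ₑ) = ‖Ext (lay g l) y‖ₑ := by
      intro l
      rw [← mul_assoc, hww, one_mul]
    simp only [h2] at h1
    refine (ENNReal.rpow_le_rpow (enorm_integral_le_lintegral_enorm _) hq0.le).trans (h1.trans ?_)
    refine mul_le_mul' (ENNReal.rpow_le_rpow hW (by linarith)) le_rfl
  have hm2 : Measurable fun y : (ℂ × ℝ) × ℝ => ENNReal.ofReal ((1 + |y.2|) ^ (-c)) *
      (ENNReal.ofReal ((1 + |y.2|) ^ c) * ‖Ext (lay g y.2) y.1‖ₑ) ^ q :=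
    (hwm.comp measurable_snd).mul (((hwm2.comp measurable_snd).mul hXm.enorm).pow_const q)
  have hfin : ∫⁻ y, ‖Ext (fun z => (g z : ℂ)) y‖ₑ ^ q ≤ ENNReal.ofReal (W * D) ^ q := by
    calc ∫⁻ y, ‖Ext (fun z => (g z : ℂ)) y‖ₑ ^ q
        ≤ ∫⁻ y, ENNReal.ofReal W ^ (q - 1) * ∫⁻ l in Ioi (0 : ℝ), ENNReal.ofReal ((1 + |l|) ^ (-c)) *
            (ENNReal.ofReal ((1 + |l|) ^ c) * ‖Ext (lay g l) y‖ₑ) ^ q := lintegral_mono hpt
      _ = ENNReal.ofReal W ^ (q - 1) * ∫⁻ y, ∫⁻ l in Ioi (0 : ℝ), ENNReal.ofReal ((1 + |l|) ^ (-c)) *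
            (ENNReal.ofReal ((1 + |l|) ^ c) * ‖Ext (lay g l) y‖ₑ) ^ q := by
          rw [lintegral_const_mul _ hm2.lintegral_prod_right']
      _ = ENNReal.ofReal W ^ (q - 1) * ∫⁻ l in Ioi (0 : ℝ), ∫⁻ y, ENNReal.ofReal ((1 + |l|) ^ (-c)) *
            (ENNReal.ofReal ((1 + |l|) ^ c) * ‖Ext (lay g l) y‖ₑ) ^ q := by
          rw [lintegral_lintegral_swap hm2.aemeasurable]
      _ ≤ ENNReal.ofReal W ^ (q - 1) * ∫⁻ l in Ioi (0 : ℝ), ENNReal.ofReal ((1 + |l|) ^ (-c)) *
            ENNReal.ofReal D ^ q := by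
          refine mul_le_mul' le_rfl ?_
          apply setLIntegral_mono' measurableSet_Ioi
          intro l hl
          rw [lintegral_const_mul' _ _ ENNReal.ofReal_ne_top]
          gcongr
          have e1 : ∀ y, (ENNReal.ofReal ((1 + |l|) ^ c) * ‖Ext (lay g l) y‖ₑ) ^ q =
              ENNReal.ofReal ((1 + |l|) ^ c) ^ q * ‖Ext (lay g l) y‖ₑ ^ q := fun y =>
            ENNReal.mul_rpow_of_nonneg _ _ hq0.le
          simp only [e1]
          rw [lintegral_const_mul' _ _ (ENNReal.rpow_ne_top_of_nonneg hq0.le ENNReal.ofReal_ne_top)]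
          calc ENNReal.ofReal ((1 + |l|) ^ c) ^ q * ∫⁻ y, ‖Ext (lay g l) y‖ₑ ^ q
              ≤ ENNReal.ofReal ((1 + |l|) ^ c) ^ q * ENNReal.ofReal (D * (1 + |l|) ^ (-c)) ^ q := by
                gcongr
                exact hlay l hl
            _ = ENNReal.ofReal D ^ q := by
                rw [← ENNReal.mul_rpow_of_nonneg _ _ hq0.le, ENNReal.ofReal_mul hD0]
                congr 1
                calc _ = ENNReal.ofReal D * (ENNReal.ofReal ((1 + |l|) ^ (-c)) *
                      ENNReal.ofReal ((1 + |l|) ^ c)) := by ring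
                  _ = _ := by rw [hww, mul_one]
      _ ≤ ENNReal.ofReal W ^ (q - 1) * (ENNReal.ofReal W * ENNReal.ofReal D ^ q) := by
          rw [lintegral_mul_const _ hwm]
          gcongr
      _ = _ := by
          rw [ENNReal.ofReal_mul hW0, ENNReal.mul_rpow_of_nonneg _ _ hq0.le, ← mul_assoc]
          congr 1
          calc ENNReal.ofReal W ^ (q - 1) * ENNReal.ofReal W
              = ENNReal.ofReal W ^ (q - 1) * ENNReal.ofReal W ^ (1 : ℝ) := by rw [ENNReal.rpow_one]
            _ = ENNReal.ofReal W ^ q := by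
                rw [← ENNReal.rpow_add_of_nonneg _ _ (by linarith) (by norm_num)]
                congr 1
                ring
  unfold LL
  calc _ ≤ (ENNReal.ofReal (W * D) ^ q) ^ (1 / q) := ENNReal.rpow_le_rpow hfin (by positivity)
    _ = _ := by rw [← ENNReal.rpow_mul, mul_one_div_cancel hq0.ne', ENNReal.rpow_one]

end Pool.Agent.Y295.ST
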