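import Mathlib
import Pool.Agent.Y295.ST.D
set_option autoImplicit false
set_option linter.unusedSectionVars false

/-! Functions nonincreasing along rays, and functions with a majorant that is nonincreasing along rays. -/

namespace Pool.Agent.Y295.ST

open MeasureTheory Set Complex Filter Topology
open scoped ENNReal NNReal
open Pool.Agent.Y250.AN (Ext LL LL_add LL_smul LL_dil LL_shift)

attribute [local irreducible] LL

/-- `L^p` norm -/
noncomputable def Np (p : ℝ) (g : ℂ → ℝ) : ℝ≥0∞ := (∫⁻ z, ENNReal.ofReal (g z ^ p)) ^ (1 / p)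

lemma Np_two {p : ℝ} (hp : 0 < p) {g κ : ℂ → ℝ} (hg0 : ∀ z, 0 ≤ g z) (hκ0 : ∀ z, 0 ≤ κ z)
    (h : ∀ z, g z ≤ 2 * κ z) : Np p g ≤ 2 * Np p κ := by
  unfold Np
  have h1 : ∫⁻ z, ENNReal.ofReal (g z ^ p) ≤ ENNReal.ofReal (2 ^ p) * ∫⁻ z, ENNReal.ofReal (κ z ^ p) := by
    rw [← lintegral_const_mul' _ _ ENNReal.ofReal_ne_top]
    apply lintegral_mono
    intro z
    simp only
    rw [← ENNReal.ofReal_mul (by positivity), ← Real.mul_rpow (by norm_num) (hκ0 z)]
    exact ENNReal.ofReal_le_ofReal (Real.rpow_le_rpow (hg0 z) (h z) hp.le)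
  refine (ENNReal.rpow_le_rpow h1 (by positivity)).trans (le_of_eq ?_)
  rw [ENNReal.mul_rpow_of_nonneg _ _ (by positivity), ENNReal.ofReal_rpow_of_nonneg (by positivity) (by positivity),
    ← Real.rpow_mul (by norm_num), mul_one_div_cancel hp.ne', Real.rpow_one]
  norm_num

/-- The bound for nonnegative functions that are nonincreasing along rays. -/
theorem layerG (q : ℝ) (hq : 3 < q) (p : ℝ) (hp : q / (q - 2) < p) :
    ∃ C : ℝ, 0 < C ∧ ∀ g : ℂ → ℝ, Measurable g → (∀ z, 0 ≤ g z) → Dec g → (∀ z, z ∉ D0 → g z = 0) →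
    LL q (fun z => (g z : ℂ)) ≤ ENNReal.ofReal C * Np p g := by
  have hq0 : 0 < q := by linarith
  have hq2 : 0 < q - 2 := by linarith
  have hp1 : 1 < p := by
    refine lt_trans ?_ hp
    rw [lt_div_iff₀ hq2]
    linarith
  have hp0 : 0 < p := by linarith
  obtain ⟨C, hC0, hC⟩ := layerN q hq p hp
  refine ⟨C + 1, by linarith, ?_⟩
  intro g hg hg0 hdec hsupp
  set J : ℝ≥0∞ := ∫⁻ z, ENNReal.ofReal (g z ^ p) with hJ
  have hNp : Np p g = J ^ (1 / p) := rfl
  rcases eq_or_ne J ⊤ with ht | ht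
  · rw [hNp, ht, ENNReal.top_rpow_of_pos (by positivity), ENNReal.mul_top (by simpa using by linarith)]
    exact le_top
  rcases eq_or_ne J 0 with h0 | h0
  · have h1 : (fun z => (g z : ℂ)) =ᵐ[volume] fun _ => 0 := by
      rw [hJ, lintegral_eq_zero_iff (hg.pow_const p).ennreal_ofReal] at h0
      filter_upwards [h0] with z hz
      have h2 : g z ^ p ≤ 0 := by simpa using hz
      have h3 : g z = 0 := by
        by_contra hc
        have h4 : 0 < g z := lt_of_le_of_ne (hg0 z) (Ne.symm hc)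
        have : 0 < g z ^ p := by positivity
        linarith
      rw [h3]
      simp
    rw [LL_congr q h1, LL_zero q hq0]
    exact zero_le
  · set N : ℝ := (J ^ (1 / p)).toReal with hN
    have hJp : J ^ (1 / p) ≠ ⊤ := ENNReal.rpow_ne_top_of_nonneg (by positivity) ht
    have hJp0 : J ^ (1 / p) ≠ 0 := by
      intro h
      rcases ENNReal.rpow_eq_zero_iff.1 h with h | h
      · exact h0 h.1
      · exact ht h.1
    have hN0 : 0 < N := ENNReal.toReal_pos hJp0 hJp
    have hNe : ENNReal.ofReal N = J ^ (1 / p) := ENNReal.ofReal_toReal hJp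
    have hg' : Measurable fun z => N⁻¹ * g z := hg.const_mul _
    have h1 := hC (fun z => N⁻¹ * g z) hg'
      (fun z => mul_nonneg (by positivity) (hg0 z))
      (fun u r s hu hr hrs => mul_le_mul_of_nonneg_left (hdec u r s hu hr hrs) (by positivity))
      (fun z hz => by rw [hsupp z hz, mul_zero]) ?_
    · have e : (fun z => (g z : ℂ)) =
          fun z => (N : ℂ) * ((N⁻¹ * g z : ℝ) : ℂ) := by
        ext z
        have hNc : (N : ℂ) ≠ 0 := by exact_mod_cast hN0.ne'
        push_cast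
        field_simp
      have hm : Measurable fun z => ((N⁻¹ * g z : ℝ) : ℂ) := Complex.measurable_ofReal.comp hg'
      rw [e, LL_smul q (by linarith) _ _ hm]
      have e2 : ‖(N : ℂ)‖ₑ = J ^ (1 / p) := by
        rw [← ofReal_norm, Complex.norm_real, Real.norm_eq_abs, abs_of_pos hN0, hNe]
      rw [e2, hNp, mul_comm]
      gcongr
      exact h1.trans (ENNReal.ofReal_le_ofReal (by linarith))
    · have e3 : ∀ z, ENNReal.ofReal ((N⁻¹ * g z) ^ p) = ENNReal.ofReal (N⁻¹ ^ p) * ENNReal.ofReal (g z ^ p) := by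
        intro z
        rw [Real.mul_rpow (by positivity) (hg0 z), ENNReal.ofReal_mul (by positivity)]
      simp only [e3]
      rw [lintegral_const_mul' _ _ ENNReal.ofReal_ne_top, ← hJ]
      have e4 : J = ENNReal.ofReal (N ^ p) := by
        rw [← ENNReal.ofReal_rpow_of_nonneg hN0.le hp0.le, hNe, ← ENNReal.rpow_mul,
          one_div_mul_cancel hp0.ne', ENNReal.rpow_one]
      rw [e4, ← ENNReal.ofReal_mul (by positivity), Real.inv_rpow hN0.le,
        inv_mul_cancel₀ (by positivity), ENNReal.ofReal_one]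

/-- variation along rays controlled by `κ` -/
def Var (κ : ℂ → ℝ) (h : ℂ → ℂ) : Prop :=
  ∀ (u : ℂ) (r s : ℝ), ‖u‖ = 1 → 0 < r → r ≤ s → ‖h ((s : ℂ) * u) - h ((r : ℂ) * u)‖ ≤
    κ ((r : ℂ) * u) - κ ((s : ℂ) * u)

/-- The bound for functions with a majorant. -/
theorem kappaG (q : ℝ) (hq : 3 < q) (p : ℝ) (hp : q / (q - 2) < p) :
    ∃ C : ℝ, 0 < C ∧ ∀ (κ : ℂ → ℝ) (h : ℂ → ℂ), Measurable κ → Measurable h → (∀ z, 0 ≤ κ z) →
    (∀ z, z ∉ D0 → κ z = 0) → (∀ z, z ∉ D0 → h z = 0) → h 0 = 0 → Var κ h →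
    LL q h ≤ ENNReal.ofReal C * Np p κ := by
  have hq0 : 0 < q := by linarith
  have hq2 : 0 < q - 2 := by linarith
  have hp1 : 1 < p := by
    refine lt_trans ?_ hp
    rw [lt_div_iff₀ hq2]
    linarith
  have hp0 : 0 < p := by linarith
  obtain ⟨C, hC0, hC⟩ := layerG q hq p hp
  refine ⟨6 * C, by linarith, ?_⟩
  intro κ h hκ hh hκ0 hκs hhs hh0 hvar
  set J : ℝ≥0∞ := ∫⁻ z, ENNReal.ofReal (κ z ^ p) with hJ
  have hNp : Np p κ = J ^ (1 / p) := rfl
  rcases eq_or_ne J ⊤ with ht | ht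
  · rw [hNp, ht, ENNReal.top_rpow_of_pos (by positivity), ENNReal.mul_top (by simpa using by linarith)]
    exact le_top
  -- pointwise bound
  have hle : ∀ z, ‖h z‖ ≤ κ z := by
    intro z
    by_cases hz0 : z = 0
    · rw [hz0, hh0, norm_zero]
      exact hκ0 0
    by_cases hz : z ∈ D0
    · rw [D0_mem] at hz
      have h1 := hvar (ud z) ‖z‖ 1 (ud_norm z) (norm_pos_iff.2 hz0) hz.le
      have hout : ((1 : ℝ) : ℂ) * ud z ∉ D0 := by
        rw [D0_mem, norm_mul, ud_norm]
        simp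
      rw [hhs _ hout, hκs _ hout, ud_eq, zero_sub, norm_neg, sub_zero] at h1
      exact h1
    · rw [hhs z hz, norm_zero]
      exact hκ0 z
  have hre : ∀ z, |(h z).re| ≤ κ z := fun z => (Complex.abs_re_le_norm _).trans (hle z)
  have him : ∀ z, |(h z).im| ≤ κ z := fun z => (Complex.abs_im_le_norm _).trans (hle z)
  have hrem : Measurable fun z => (h z).re := Complex.measurable_re.comp hh
  have himm : Measurable fun z => (h z).im := Complex.measurable_im.comp hh
  set g1 : ℂ → ℝ := fun z => (h z).re + κ z with hg1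
  set g3 : ℂ → ℝ := fun z => (h z).im + κ z with hg3
  have hg1m : Measurable g1 := hrem.add hκ
  have hg3m : Measurable g3 := himm.add hκ
  have hg10 : ∀ z, 0 ≤ g1 z := fun z => by
    have := (abs_le.1 (hre z)).1
    rw [hg1]
    simp only
    linarith
  have hg30 : ∀ z, 0 ≤ g3 z := fun z => by
    have := (abs_le.1 (him z)).1
    rw [hg3]
    simp only
    linarith
  have hg12 : ∀ z, g1 z ≤ 2 * κ z := fun z => by
    have := (abs_le.1 (hre z)).2
    rw [hg1]
    simp only
    linarith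
  have hg32 : ∀ z, g3 z ≤ 2 * κ z := fun z => by
    have := (abs_le.1 (him z)).2
    rw [hg3]
    simp only
    linarith
  have hg1s : ∀ z, z ∉ D0 → g1 z = 0 := fun z hz => by
    rw [hg1]
    simp only
    rw [hhs z hz, hκs z hz]
    simp
  have hg3s : ∀ z, z ∉ D0 → g3 z = 0 := fun z hz => by
    rw [hg3]
    simp only
    rw [hhs z hz, hκs z hz]
    simp
  have hn1 : Dec g1 := by
    intro u r s hu hr hrs
    have h1 := hvar u r s hu hr hrs
    have h2 := (abs_le.1 (Complex.abs_re_le_norm (h ((s : ℂ) * u) - h ((r : ℂ) * u)))).2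
    rw [Complex.sub_re] at h2
    rw [hg1]
    simp only
    linarith
  have hn3 : Dec g3 := by
    intro u r s hu hr hrs
    have h1 := hvar u r s hu hr hrs
    have h2 := (abs_le.1 (Complex.abs_im_le_norm (h ((s : ℂ) * u) - h ((r : ℂ) * u)))).2
    rw [Complex.sub_im] at h2
    rw [hg3]
    simp only
    linarith
  have hnk : Dec κ := by
    intro u r s hu hr hrs
    have h1 := hvar u r s hu hr hrs
    have h2 := norm_nonneg (h ((s : ℂ) * u) - h ((r : ℂ) * u))
    linarith
  have b1 := (hC g1 hg1m hg10 hn1 hg1s).trans (mul_le_mul_right (Np_two hp0 hg10 hκ0 hg12) _)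
  have b2 := hC κ hκ hκ0 hnk hκs
  have b3 := (hC g3 hg3m hg30 hn3 hg3s).trans (mul_le_mul_right (Np_two hp0 hg30 hκ0 hg32) _)
  -- integrability
  have hκi : Integrable κ := int_of hκ hκ0 hκs hp1.le (lt_top_iff_ne_top.2 ht)
  have hInt : ∀ g : ℂ → ℝ, Measurable g → (∀ z, 0 ≤ g z) → (∀ z, g z ≤ 2 * κ z) →
      Integrable fun z => (g z : ℂ) := by
    intro g hgm hg0 hg2
    refine (hκi.const_mul 2).mono' (Complex.measurable_ofReal.comp hgm).aestronglyMeasurable
      (ae_of_all _ fun z => ?_)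
    rw [Complex.norm_real, Real.norm_eq_abs, abs_of_nonneg (hg0 z)]
    exact hg2 z
  have hMs : ∀ g : ℂ → ℝ, Measurable g → Measurable fun z => (g z : ℂ) := fun g hgm =>
    Complex.measurable_ofReal.comp hgm
  have i1 := hInt g1 hg1m hg10 hg12
  have i2 := hInt κ hκ hκ0 (fun z => by linarith [hκ0 z])
  have i3 := hInt g3 hg3m hg30 hg32
  have m1 := hMs g1 hg1m
  have m2 := hMs κ hκ
  have m3 := hMs g3 hg3m
  have e : h = fun z =>
      ((g1 z : ℂ) + (-1 : ℂ) * (κ z : ℂ)) + (I * (g3 z : ℂ) + (-I) * (κ z : ℂ)) := by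
    ext z
    have h1 : h z = ((h z).re : ℂ) + ((h z).im : ℂ) * I := (Complex.re_add_im _).symm
    rw [hg1, hg3]
    simp only
    push_cast
    nth_rewrite 1 [h1]
    ring
  rw [e]
  have c1 : LL q (fun z => (-1 : ℂ) * (κ z : ℂ)) ≤ ENNReal.ofReal C * Np p κ := by
    rw [LL_smul q (by linarith) _ _ m2]
    have : ‖(-1 : ℂ)‖ₑ = 1 := by
      rw [← ofReal_norm, norm_neg, norm_one, ENNReal.ofReal_one]
    rw [this, one_mul]
    exact b2
  have c2 : LL q (fun z => (-I : ℂ) * (κ z : ℂ)) ≤ ENNReal.ofReal C * Np p κ := by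
    rw [LL_smul q (by linarith) _ _ m2]
    have : ‖(-I : ℂ)‖ₑ = 1 := by
      rw [← ofReal_norm, norm_neg, Complex.norm_I, ENNReal.ofReal_one]
    rw [this, one_mul]
    exact b2
  have c3 : LL q (fun z => I * (g3 z : ℂ)) ≤ ENNReal.ofReal C * (2 * Np p κ) := by
    rw [LL_smul q (by linarith) _ _ m3]
    have : ‖(I : ℂ)‖ₑ = 1 := by
      rw [← ofReal_norm, Complex.norm_I, ENNReal.ofReal_one]
    rw [this, one_mul]
    exact b3
  refine (LL_add q (by linarith) _ _ (i1.add (i2.const_mul _)) ((i3.const_mul _).add (i2.const_mul _))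
    (m1.add (m2.const_mul _)) ((m3.const_mul _).add (m2.const_mul _))).trans ?_
  refine (add_le_add (LL_add q (by linarith) _ _ i1 (i2.const_mul _) m1 (m2.const_mul _))
    (LL_add q (by linarith) _ _ (i3.const_mul _) (i2.const_mul _) (m3.const_mul _) (m2.const_mul _))).trans ?_
  refine (add_le_add (add_le_add b1 c1) (add_le_add c3 c2)).trans (le_of_eq ?_)
  rw [ENNReal.ofReal_mul (by norm_num), show ENNReal.ofReal 6 = 6 by norm_num]
  ring

/-- discs of radius `R`; the majorant need not vanish off the disc, and the centre is arbitrary -/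
theorem kappaR (q : ℝ) (hq : 3 < q) (p : ℝ) (hp : q / (q - 2) < p) (R : ℝ) (hR : 0 < R) :
    ∃ C : ℝ, 0 < C ∧ ∀ (κ : ℂ → ℝ) (h : ℂ → ℂ), Measurable κ → Measurable h → (∀ z, 0 ≤ κ z) →
    (∀ z, R ≤ ‖z‖ → h z = 0) → Var κ h → LL q h ≤ ENNReal.ofReal C * Np p κ := by
  have hq0 : 0 < q := by linarith
  have hq2 : 0 < q - 2 := by linarith
  have hp1 : 1 < p := by
    refine lt_trans ?_ hp
    rw [lt_div_iff₀ hq2]
    linarith
  have hp0 : 0 < p := by linarith
  obtain ⟨C, hC0, hC⟩ := kappaG q hq p hp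
  refine ⟨R ^ (2 - 4 / q) * C * ((R ^ 2)⁻¹) ^ (1 / p), by positivity, ?_⟩
  intro κ h hκ hh hκ0 hhs hvar
  set κ' : ℂ → ℝ := fun η => if ‖η‖ < 1 then κ (R • η) else 0 with hκ'
  set h' : ℂ → ℂ := fun η => if η = 0 then 0 else h (R • η) with hh'
  have hκm : Measurable κ' := by
    have h1 : Measurable fun η : ℂ => κ (R • η) := hκ.comp (by fun_prop)
    exact Measurable.ite (measurableSet_lt measurable_norm measurable_const) h1 measurable_const
  have hhm : Measurable h' := by
    have h1 : Measurable fun η : ℂ => h (R • η) := hh.comp (by fun_prop)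
    exact Measurable.ite (measurableSet_singleton 0) measurable_const h1
  have hκ0' : ∀ z, 0 ≤ κ' z := by
    intro z
    rw [hκ']
    simp only
    split_ifs
    · exact hκ0 _
    · exact le_rfl
  have hsm : ∀ (r : ℝ) (u : ℂ), R • ((r : ℂ) * u) = ((R * r : ℝ) : ℂ) * u := by
    intro r u
    rw [Complex.real_smul, ← mul_assoc, ← Complex.ofReal_mul]
  have hnu : ∀ (r : ℝ) (u : ℂ), ‖u‖ = 1 → 0 < r → ‖(r : ℂ) * u‖ = r := by
    intro r u hu hr
    rw [norm_mul, hu, mul_one, Complex.norm_real, Real.norm_of_nonneg hr.le]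
  have hvar' : Var κ' h' := by
    intro u r s hu hr hrs
    have hs : 0 < s := hr.trans_le hrs
    have n1 : (r : ℂ) * u ≠ 0 := by
      rw [← norm_pos_iff, hnu r u hu hr]
      exact hr
    have n2 : (s : ℂ) * u ≠ 0 := by
      rw [← norm_pos_iff, hnu s u hu hs]
      exact hs
    have h1 := hvar u (R * r) (R * s) hu (by positivity) (by gcongr)
    rw [hh', hκ']
    simp only
    rw [if_neg n1, if_neg n2, hnu r u hu hr, hnu s u hu hs, hsm, hsm]
    have n3 : ‖((R * s : ℝ) : ℂ) * u‖ = R * s := hnu _ u hu (by positivity)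
    have n4 : ‖((R * r : ℝ) : ℂ) * u‖ = R * r := hnu _ u hu (by positivity)
    rcases lt_or_ge r 1 with hr1 | hr1
    · rw [if_pos hr1]
      rcases lt_or_ge s 1 with hs1 | hs1
      · rw [if_pos hs1]
        exact h1
      · rw [if_neg (not_lt.2 hs1)]
        have := hκ0 (((R * s : ℝ) : ℂ) * u)
        linarith
    · rw [if_neg (not_lt.2 hr1), if_neg (not_lt.2 (hr1.trans hrs))]
      have z1 := hhs _ (by rw [n4]; nlinarith : R ≤ ‖((R * r : ℝ) : ℂ) * u‖)
      have z2 := hhs _ (by rw [n3]; nlinarith : R ≤ ‖((R * s : ℝ) : ℂ) * u‖)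
      rw [z1, z2]
      simp
  have h1 := hC κ' h' hκm hhm hκ0' (fun z hz => by
      rw [hκ']
      simp only
      rw [if_neg]
      rwa [D0_mem] at hz) (fun z hz => by
      rw [D0_mem, not_lt] at hz
      rw [hh']
      simp only
      split_ifs
      · rfl
      · apply hhs
        rw [norm_smul, Real.norm_of_nonneg hR.le]
        nlinarith) (by rw [hh']; simp) hvar'
  -- back to `h`
  have e1 : h =ᵐ[volume] fun ξ => h' (R⁻¹ • ξ) := by
    have h0 : ∀ᵐ ξ : ℂ, ξ ≠ 0 := by
      rw [ae_iff]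
      simp only [ne_eq, not_not]
      exact measure_singleton (0 : ℂ)
    filter_upwards [h0] with ξ hξ
    rw [hh']
    simp only
    rw [if_neg, smul_smul, mul_inv_cancel₀ hR.ne', one_smul]
    exact smul_ne_zero (inv_ne_zero hR.ne') hξ
  rw [LL_congr q e1, LL_dil q (by linarith) R hR _ hhm]
  have h2 : Np p κ' ≤ ENNReal.ofReal (((R ^ 2)⁻¹) ^ (1 / p)) * Np p κ := by
    unfold Np
    have h3 : ∫⁻ z, ENNReal.ofReal (κ' z ^ p) ≤ ENNReal.ofReal ((R ^ 2)⁻¹) * ∫⁻ z, ENNReal.ofReal (κ z ^ p) := by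
      calc ∫⁻ z, ENNReal.ofReal (κ' z ^ p) ≤ ∫⁻ z, (fun ζ => ENNReal.ofReal (κ ζ ^ p)) (R • z) := by
            apply lintegral_mono
            intro z
            rw [hκ']
            simp only
            split_ifs
            · exact le_rfl
            · rw [Real.zero_rpow hp0.ne', ENNReal.ofReal_zero]
              exact zero_le
        _ = _ := by
            have h4 := Measure.map_addHaar_smul (volume : Measure ℂ) hR.ne'
            have hmκ : Measurable fun ζ => ENNReal.ofReal (κ ζ ^ p) := (hκ.pow_const p).ennreal_ofReal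
            have h5 : ∫⁻ x : ℂ, (fun ζ => ENNReal.ofReal (κ ζ ^ p)) x ∂(Measure.map ((R • ·) : ℂ → ℂ) volume) =
                ∫⁻ z, (fun ζ => ENNReal.ofReal (κ ζ ^ p)) (R • z) := lintegral_map hmκ (measurable_const_smul _)
            rw [← h5, h4, lintegral_smul_measure, smul_eq_mul, Complex.finrank_real_complex,
              abs_of_nonneg (by positivity)]
    refine (ENNReal.rpow_le_rpow h3 (by positivity)).trans (le_of_eq ?_)
    rw [ENNReal.mul_rpow_of_nonneg _ _ (by positivity), ENNReal.ofReal_rpow_of_nonneg (by positivity) (by positivity)]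
  calc ENNReal.ofReal (R ^ (2 - 4 / q)) * LL q h'
      ≤ ENNReal.ofReal (R ^ (2 - 4 / q)) * (ENNReal.ofReal C *
        (ENNReal.ofReal (((R ^ 2)⁻¹) ^ (1 / p)) * Np p κ)) := by
        refine mul_le_mul' le_rfl (h1.trans (mul_le_mul' le_rfl h2))
    _ = _ := by
        rw [← mul_assoc, ← mul_assoc, ← ENNReal.ofReal_mul (by positivity), ← ENNReal.ofReal_mul (by positivity)]

end Pool.Agent.Y295.ST
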