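import Mathlib
import Pool.Agent.Y295.ST.G
set_option autoImplicit false
set_option linter.unusedSectionVars false

/-! The extension operator of the problem. -/

namespace Pool.Agent.Y295.ST

open MeasureTheory Set Complex Filter Topology
open scoped ENNReal NNReal
open Pool.Agent.Y250.AN (ee Ext LL LL_shift ex ex_norm tc tc_mp tc_emb cir cir_eq nsq)

attribute [local irreducible] LL

theorem partA (q : ℝ) (hq : 3 < q) (p : ℝ) (hp : q / (q - 2) < p) (D : ℝ) (hD : 0 ≤ D) :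
    ∃ C : ℝ, 0 < C ∧ ∀ (U : Set (ℝ × ℝ)),
    (∀ x ∈ U, x.1 ^ 2 + x.2 ^ 2 ≤ 1 / 4) → ∀ f : ℝ × ℝ → ℂ, Measurable f → (∀ x, x ∉ U → f x = 0) →
    ∀ (c : ℝ × ℝ), c.1 ^ 2 + c.2 ^ 2 ≤ D ^ 2 → ∀ κ : ℝ × ℝ → ℝ, Measurable κ → (∀ x, 0 ≤ κ x) →
    (∀ r s θ, 0 < r → r ≤ s → ‖f (cir c s θ) - f (cir c r θ)‖ ≤ κ (cir c r θ) - κ (cir c s θ)) →
    eLpNorm (ex U f) (ENNReal.ofReal q) volume ≤ ENNReal.ofReal C * eLpNorm κ (ENNReal.ofReal p) volume := by
  obtain ⟨C, hC, h⟩ := kappaR q hq p hp (D + 1) (by linarith)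
  refine ⟨C, hC, ?_⟩
  intro U hU f hfm hf c hc κ hκ hκ0 hv
  have hq0 : 0 < q := by linarith
  have hp0 : 0 < p := lt_trans (div_pos hq0 (by linarith)) hp
  rw [ex_norm q hq0 U f hfm hf]
  set z0 : ℂ := (c.1 : ℂ) + (c.2 : ℂ) * I with hz0
  set g : ℂ → ℂ := fun z => f (tc (z + z0)) with hg
  set K : ℂ → ℝ := fun z => κ (tc (z + z0)) with hK
  have htm : Measurable fun z : ℂ => tc (z + z0) := tc_mp.measurable.comp (measurable_id.add_const z0)
  have hgm : Measurable g := hfm.comp htm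
  have hKm : Measurable K := hκ.comp htm
  have e1 : (fun z => f (tc z)) = fun z => g (z - z0) := by
    ext z
    simp only [hg]
    rw [sub_add_cancel]
  rw [e1, LL_shift q g hgm]
  have hz0n : ‖z0‖ ≤ D := by
    have h1 : ‖z0‖ ^ 2 ≤ D ^ 2 := by
      rw [nsq]
      simpa [hz0] using hc
    exact (abs_le_of_sq_le_sq' h1 hD).2
  have hgR : ∀ ξ, D + 1 ≤ ‖ξ‖ → g ξ = 0 := by
    intro z hz
    simp only [hg]
    apply hf
    intro hin
    have h1 := hU _ hin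
    have h2 : ‖z + z0‖ ^ 2 ≤ (1 / 2 : ℝ) ^ 2 := by
      rw [nsq]
      unfold tc at h1
      linarith
    have h3 := (abs_le_of_sq_le_sq' h2 (by norm_num)).2
    have h5 : ‖z‖ ≤ ‖z + z0‖ + ‖z0‖ := by
      calc ‖z‖ = ‖(z + z0) - z0‖ := by rw [add_sub_cancel_right]
        _ ≤ _ := norm_sub_le _ _
    linarith
  have hvar : Var K g := by
    intro u r s hu hr hrs
    have h1 : u = ee (arg u) := by
      have h2 := ud_eq u
      rw [hu, Complex.ofReal_one, one_mul] at h2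
      exact h2.symm
    have h3 := hv r s (arg u) hr hrs
    rw [← cir_eq, ← cir_eq, ← h1] at h3
    exact h3
  have h1 := h K g hKm hgm (fun z => hκ0 _) hgR hvar
  refine h1.trans (mul_le_mul' le_rfl (le_of_eq ?_))
  unfold Np
  rw [eLpNorm_eq_lintegral_rpow_enorm_toReal (by simpa using hp0) ENNReal.ofReal_ne_top,
    ENNReal.toReal_ofReal hp0.le]
  congr 1
  have e2 : ∫⁻ z : ℂ, ENNReal.ofReal (K z ^ p) = ∫⁻ z : ℂ, ENNReal.ofReal (κ (tc z) ^ p) :=
    lintegral_add_right_eq_self (μ := (volume : Measure ℂ)) (fun z => ENNReal.ofReal (κ (tc z) ^ p)) z0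
  rw [e2]
  have e3 := tc_mp.lintegral_comp ((hκ.pow_const p).ennreal_ofReal)
  rw [e3]
  apply lintegral_congr
  intro x
  rw [Real.enorm_eq_ofReal (hκ0 x), ENNReal.ofReal_rpow_of_nonneg (hκ0 x) hp0.le]

end Pool.Agent.Y295.ST
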